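import Pool.Agent.Q230.LR.St

set_option autoImplicit false

/-!
# LR-VC, LR-VEB: vectors in `ℝ³` for gates
-/

namespace Pool.Agent.Q257.LR.V

open Pool.Agent.NPC Pool.Agent.NPC.ER
open Pool.Agent.Q230.LR

/-- the statement, with the condition `g.1 ≤ 5` in the second clause -/
def SVC : Prop := ∀ (γ δ B : ℝ) (v : ℕ → ℝ) (g : Gt),
  ((g.1 ≤ 3 → Hld γ v g) → ∀ c ∈ gset g, dot (rvec γ v g) (cvec δ v c) = 0) ∧
  (g.1 ≤ 5 → (∀ k, |v k| ≤ B) → ∀ l : Fin 3, InBox γ δ B (rsp g l) (rvec γ v g l)) ∧
  ((∀ k, |v k| ≤ B) → ∀ (c : ℕ × ℕ) (l : Fin 3), InBox γ δ B (csp c l) (cvec δ v c l))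

theorem vc : SVC := by
  intro γ δ B v g
  refine ⟨?_, ?_, ?_⟩
  · intro h c hc
    obtain ⟨t, i, j, k⟩ := g
    rcases (by omega : t = 0 ∨ t = 1 ∨ t = 2 ∨ t = 3 ∨ t = 4 ∨ 5 ≤ t) with rfl | rfl | rfl | rfl | rfl | ht
    · have h1 := h (by norm_num)
      simp only [gset, if_true, List.mem_singleton] at hc
      subst hc
      simp only [Hld, op] at h1
      norm_num at h1
      simp [dot, rvec, cvec, h1]
    · have h1 := h (by norm_num)
      simp [gset] at hc
      simp only [Hld, op] at h1
      norm_num at h1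
      rcases hc with rfl | rfl | rfl
      · simp [dot, rvec, cvec]
      · simp [dot, rvec, cvec]
      · simp [dot, rvec, cvec, h1]
        ring
    · have h1 := h (by norm_num)
      simp [gset] at hc
      simp only [Hld, op] at h1
      norm_num at h1
      rcases hc with rfl | rfl | rfl
      · simp [dot, rvec, cvec]
      · simp [dot, rvec, cvec]
      · simp [dot, rvec, cvec, h1]
    · have h1 := h (by norm_num)
      simp [gset] at hc
      simp only [Hld, op] at h1
      norm_num at h1
      rcases hc with rfl | rfl | rfl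
      · simp [dot, rvec, cvec]
      · simp [dot, rvec, cvec]
      · simp [dot, rvec, cvec, h1]
    · simp [gset] at hc
      rcases hc with rfl | rfl | rfl | rfl
      · simp [dot, rvec, cvec]
      · simp [dot, rvec, cvec]
      · simp [dot, rvec, cvec]
        ring
      · simp [dot, rvec, cvec]
    · have e0 : t ≠ 0 := by omega
      have e1 : t ≠ 1 := by omega
      have e2 : t ≠ 2 := by omega
      have e3 : t ≠ 3 := by omega
      have e4 : t ≠ 4 := by omega
      simp [gset, e0, e1, e2, e3, e4] at hc
      rcases hc with rfl | rfl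
      · simp [dot, rvec, cvec, e0, e1, e2, e3, e4]
      · simp [dot, rvec, cvec, e0, e1, e2, e3, e4]
  · intro ht hv l
    obtain ⟨t, i, j, k⟩ := g
    have ht' : t ≤ 5 := ht
    rcases (by omega : t = 0 ∨ t = 1 ∨ t = 2 ∨ t = 3 ∨ t = 4 ∨ t = 5) with rfl | rfl | rfl | rfl | rfl | rfl
    · fin_cases l
      · by_cases h8 : j = 8
        · subst h8
          simp [InBox, rsp, rvec, spv, cv]
        · by_cases h1 : j = 1
          · subst h1
            simp [InBox, rsp, rvec, spv, cv]
          · simp [InBox, rsp, rvec, spv, cv, h8, h1]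
      · simp [InBox, rsp, rvec, spv]
      · simp [InBox, rsp, rvec, spv]
    · fin_cases l
      · simp [InBox, rsp, rvec]; exact hv i
      · simp [InBox, rsp, rvec]; exact hv j
      · simp [InBox, rsp, rvec, spv]
    · fin_cases l
      · simp [InBox, rsp, rvec]; exact hv i
      · simp [InBox, rsp, rvec]; exact hv k
      · simp [InBox, rsp, rvec, spv]
    · fin_cases l
      · simp [InBox, rsp, rvec]; exact hv i
      · simp [InBox, rsp, rvec]; exact hv k
      · simp [InBox, rsp, rvec, spv]
    · fin_cases l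
      · simp [InBox, rsp, rvec]; exact hv i
      · simp [InBox, rsp, rvec]; exact hv i
      · simp [InBox, rsp, rvec, spv]
    · fin_cases l
      · simp [InBox, rsp, rvec, spv]
      · simp [InBox, rsp, rvec]; exact hv i
      · simp [InBox, rsp, rvec, spv]
  · intro hv c l
    obtain ⟨t, j⟩ := c
    rcases (by omega : t = 0 ∨ t = 1 ∨ t = 2 ∨ t = 3 ∨ t = 4 ∨ t = 5 ∨ 6 ≤ t) with rfl | rfl | rfl | rfl | rfl | rfl | ht
    · fin_cases l
      · simp [InBox, csp, cvec, spv]
      · simp [InBox, csp, cvec, spv]
      · simp [InBox, csp, cvec]; exact hv j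
    · fin_cases l
      · simp [InBox, csp, cvec, spv]
      · simp [InBox, csp, cvec, spv]
      · simp [InBox, csp, cvec]; exact hv j
    · fin_cases l
      · simp [InBox, csp, cvec, spv]
      · simp [InBox, csp, cvec, spv]
      · simp [InBox, csp, cvec]; exact hv j
    · fin_cases l
      · simp [InBox, csp, cvec]; exact hv j
      · simp [InBox, csp, cvec, spv]
      · simp [InBox, csp, cvec, spv]
    · fin_cases l
      · simp [InBox, csp, cvec, spv]
      · simp [InBox, csp, cvec, spv]
      · simp [InBox, csp, cvec, spv]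
    · fin_cases l
      · simp [InBox, csp, cvec, spv]
      · simp [InBox, csp, cvec, spv]
      · simp [InBox, csp, cvec, spv]
    · have e0 : t ≠ 0 := by omega
      have e1 : t ≠ 1 := by omega
      have e2 : t ≠ 2 := by omega
      have e3 : t ≠ 3 := by omega
      have e4 : t ≠ 4 := by omega
      have e5 : t ≠ 5 := by omega
      fin_cases l
      · simp [InBox, csp, cvec, spv, e0, e1, e2, e3, e4, e5]
      · simp [InBox, csp, cvec, spv, e0, e1, e2, e3, e4, e5]
      · simp [InBox, csp, cvec, spv, e0, e1, e2, e3, e4, e5]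

end Pool.Agent.Q257.LR.V
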