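import Pool.Agent.Q230.LR.St

set_option autoImplicit false

/-!
# LR-GS0: systems of constraints and gates for `p = 0`
-/

namespace Pool.Agent.Q257.LR

open Pool.Agent.NPC Pool.Agent.NPC.ER
open Pool.Agent.Q230.LR

theorem ri_lt {S : List Con} {i : ℕ} (hi : i ∈ svars S) : ri S i < (svars S).length :=
  List.idxOf_lt_length_of_mem hi

theorem get_ri {S : List Con} {i : ℕ} (hi : i ∈ svars S) : (svars S)[ri S i]'(ri_lt hi) = i :=
  List.getElem_idxOf (ri_lt hi)

/-- the gates of a constraint -/
theorem mem_gates0 {S : List Con} {g : Gt} : g ∈ gates0 S ↔ g = (0, 0, 0, (svars S).length) ∨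
    ∃ (c : Con) (t : ℕ), S[t]? = some c ∧ g ∈ (match c with
    | ER.Con.one i => [((0 : ℕ), (0 : ℕ), (8 : ℕ), ri S i)]
    | ER.Con.add i j k => [(1, ri S i, ri S j, (svars S).length + 1 + t),
        (1, ri S k, (svars S).length, (svars S).length + 1 + t)]
    | ER.Con.mul i j k => [(3, ri S i, ri S j, ri S k)]) := by
  unfold gates0
  rw [List.mem_cons, List.mem_flatMap]
  constructor
  · rintro (h | ⟨⟨c, t⟩, h1, h2⟩)
    · exact Or.inl h
    · rw [List.mem_zipIdx_iff_getElem?] at h1
      exact Or.inr ⟨c, t, h1, h2⟩
  · rintro (h | ⟨c, t, h1, h2⟩)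
    · exact Or.inl h
    · exact Or.inr ⟨(c, t), List.mem_zipIdx_iff_getElem?.2 h1, h2⟩

theorem gs0 : S_GS0 := by
  intro S
  set n := (svars S).length with hn
  refine ⟨⟨?_, ?_⟩, ?_⟩
  · rintro ⟨v₀, hv₀⟩
    let v : ℕ → ℝ := fun k => if h : k < (svars S).length then v₀ ((svars S)[k]) else
      if k = n then 0 else match S[k - n - 1]? with
        | some (ER.Con.add _ _ l) => v₀ l / 2
        | _ => 0
    have hv1 : ∀ i ∈ svars S, v (ri S i) = v₀ i := by
      intro i hi
      show (if h : ri S i < (svars S).length then v₀ ((svars S)[ri S i]) else _) = v₀ i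
      rw [dif_pos (ri_lt hi), get_ri hi]
    have hv2 : v n = 0 := by
      show (if h : n < (svars S).length then _ else _) = (0 : ℝ)
      rw [dif_neg (by omega), if_pos rfl]
    have hv3 : ∀ t i j l, S[t]? = some (ER.Con.add i j l) → v (n + 1 + t) = v₀ l / 2 := by
      intro t i j l h
      show (if h : n + 1 + t < (svars S).length then _ else _) = v₀ l / 2
      rw [dif_neg (by omega), if_neg (by omega)]
      have e : n + 1 + t - n - 1 = t := by omega
      rw [e, h]
    refine ⟨v, fun g hg => ?_⟩
    rw [mem_gates0] at hg
    rcases hg with rfl | ⟨c, t, hc, hg⟩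
    · show v n = op 1 v (0, 0, 0, n)
      rw [hv2]
      simp [op, cv]
    · have hcS : c ∈ S := List.mem_of_getElem? hc
      have hmem : ∀ i ∈ c.vars, v (ri S i) = v₀ i := fun i hi => hv1 i (mem_svars hcS hi)
      have hh := hv₀ c hcS
      cases c with
      | one i =>
        simp only [List.mem_singleton] at hg
        subst hg
        have h1 := hmem i (by simp [ER.Con.vars])
        simp only [ER.Con.Holds] at hh
        simp [Hld, op, cv, h1, hh]
      | add i j l =>
        have h1 := hmem i (by simp [ER.Con.vars])
        have h2 := hmem j (by simp [ER.Con.vars])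
        have h3 := hmem l (by simp [ER.Con.vars])
        have h4 := hv3 t i j l hc
        simp only [ER.Con.Holds] at hh
        simp only [List.mem_cons, List.not_mem_nil, or_false] at hg
        rcases hg with rfl | rfl
        · show v (n + 1 + t) = op 1 v (1, ri S i, ri S j, n + 1 + t)
          simp only [op]
          rw [h4]
          simp [h1, h2, hh]
        · show v (n + 1 + t) = op 1 v (1, ri S l, n, n + 1 + t)
          simp only [op]
          rw [h4]
          simp [h3, hv2]
      | mul i j l =>
        have h1 := hmem i (by simp [ER.Con.vars])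
        have h2 := hmem j (by simp [ER.Con.vars])
        have h3 := hmem l (by simp [ER.Con.vars])
        simp only [ER.Con.Holds] at hh
        simp only [List.mem_singleton] at hg
        subst hg
        simp [Hld, op, h1, h2, h3, hh]
  · rintro ⟨v, hv⟩
    refine ⟨fun i => v (ri S i), fun c hc => ?_⟩
    obtain ⟨t, ht⟩ := List.mem_iff_getElem?.1 hc
    have h0 : v n = 0 := by
      have := hv (0, 0, 0, n) (mem_gates0.2 (Or.inl rfl))
      simpa [Hld, op, cv] using this
    cases c with
    | one i =>
      have := hv (0, 0, 8, ri S i) (mem_gates0.2 (Or.inr ⟨_, t, ht, by simp⟩))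
      simpa [Hld, op, cv, ER.Con.Holds] using this
    | add i j l =>
      have h1 := hv (1, ri S i, ri S j, n + 1 + t) (mem_gates0.2 (Or.inr ⟨_, t, ht, by simp [hn]⟩))
      have h2 := hv (1, ri S l, n, n + 1 + t) (mem_gates0.2 (Or.inr ⟨_, t, ht, by simp [hn]⟩))
      simp only [Hld, op] at h1 h2
      norm_num at h1 h2
      rw [h0, h1] at h2
      show v (ri S i) + v (ri S j) = v (ri S l)
      linarith
    | mul i j l =>
      have h1 := hv (3, ri S i, ri S j, ri S l) (mem_gates0.2 (Or.inr ⟨_, t, ht, by simp⟩))
      simp only [Hld, op] at h1
      norm_num at h1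
      show v (ri S i) * v (ri S j) = v (ri S l)
      linarith
  · intro g hg
    have hN : num0 S = n + 1 + S.length := rfl
    rw [hN]
    rw [mem_gates0] at hg
    rcases hg with rfl | ⟨c, t, hc, hg⟩
    · refine ⟨by norm_num, ?_, ?_, ?_⟩
      · show n < n + 1 + S.length
        omega
      · intro h; exact absurd rfl h
      · intro h; norm_num at h
    · have hcS : c ∈ S := List.mem_of_getElem? hc
      have hmem : ∀ i ∈ c.vars, ri S i < n := fun i hi => ri_lt (mem_svars hcS hi)
      have ht : t < S.length := (List.getElem?_eq_some_iff.1 hc).1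
      cases c with
      | one i =>
        have h1 := hmem i (by simp [ER.Con.vars])
        simp only [List.mem_singleton] at hg
        subst hg
        refine ⟨by norm_num, ?_, fun h => absurd rfl h, fun h => by norm_num at h⟩
        show ri S i < n + 1 + S.length
        omega
      | add i j l =>
        have h1 := hmem i (by simp [ER.Con.vars])
        have h2 := hmem j (by simp [ER.Con.vars])
        have h3 := hmem l (by simp [ER.Con.vars])
        simp only [List.mem_cons, List.not_mem_nil, or_false] at hg
        rcases hg with rfl | rfl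
        · refine ⟨by norm_num, ?_, fun _ => ?_, fun _ => ?_⟩
          · show n + 1 + t < n + 1 + S.length
            omega
          · show ri S i < n + 1 + S.length
            omega
          · show ri S j < n + 1 + S.length
            omega
        · refine ⟨by norm_num, ?_, fun _ => ?_, fun _ => ?_⟩
          · show n + 1 + t < n + 1 + S.length
            omega
          · show ri S l < n + 1 + S.length
            omega
          · show n < n + 1 + S.length
            omega
      | mul i j l =>
        have h1 := hmem i (by simp [ER.Con.vars])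
        have h2 := hmem j (by simp [ER.Con.vars])
        have h3 := hmem l (by simp [ER.Con.vars])
        simp only [List.mem_singleton] at hg
        subst hg
        refine ⟨by norm_num, ?_, fun _ => ?_, fun _ => ?_⟩
        · show ri S l < n + 1 + S.length
          omega
        · show ri S i < n + 1 + S.length
          omega
        · show ri S j < n + 1 + S.length
          omega

end Pool.Agent.Q257.LR
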