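import Pool.Agent.Q230.LR.St

set_option autoImplicit false

/-!
# LR-IX, LR-EZ: splitting of a double sum; entries of the integer matrix
-/

namespace Pool.Agent.Q257.LR.I

open Pool.Agent.NPC Pool.Agent.NPC.ER
open Pool.Agent.Q230.LR

theorem ez : S_EZ := by
  intro K D W rc cc kd i j hK hD
  have hK' : (K : ℝ) ≠ 0 := by exact_mod_cast hK.ne'
  have hD' : (D : ℝ) ≠ 0 := by exact_mod_cast hD.ne'
  have hz : ∀ c, ((spz K D W c : ℤ) : ℝ) = (16 * K * D * W) * spv (1 / K) (1 / D) c := by
    intro c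
    unfold spz spv
    split_ifs
    · push_cast; ring
    · push_cast; ring
    · push_cast; ring
    · push_cast; field_simp
    · push_cast; field_simp; ring
    · push_cast; field_simp
    · push_cast; ring
  have hm : ((16 * D * W : ℕ) : ℝ) = 16 * K * D * W * (1 / K) := by push_cast; field_simp
  unfold ent1z ent1
  by_cases hi : i < 6
  · rw [if_pos hi, if_pos hi]
    by_cases hj : j < 6
    · rw [if_pos hj, if_pos hj]
      split_ifs
      · push_cast; ring
      · norm_num
    · rw [if_neg hj, if_neg hj]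
      by_cases h0 : cc ((j - 6) / 2) (i / 2) = 0
      · rw [if_pos h0, if_pos h0]
        split_ifs
        · rw [← hm]; push_cast; ring
        · rw [← hm]; push_cast; ring
      · rw [if_neg h0, if_neg h0]
        exact hz _
  · rw [if_neg hi, if_neg hi]
    by_cases hj : j < 6
    · rw [if_pos hj, if_pos hj]
      by_cases h0 : rc ((i - 6) / 2) (j / 2) = 0
      · rw [if_pos h0, if_pos h0]
        split_ifs
        · rw [← hm]; push_cast; ring
        · rw [← hm]; push_cast; ring
      · rw [if_neg h0, if_neg h0]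
        exact hz _
    · rw [if_neg hj, if_neg hj]
      split_ifs <;> norm_num

theorem split (m : ℕ) (f : ℕ → ℝ) : ∑ i ∈ Finset.range (6 + 2 * m), f i =
    ∑ i ∈ Finset.range 6, f i + ∑ a ∈ Finset.range m, ∑ s ∈ Finset.range 2, f (6 + 2 * a + s) := by
  induction m with
  | zero => simp
  | succ m ih =>
    have h1 : ∑ i ∈ Finset.range (6 + 2 * (m + 1)), f i =
        ∑ i ∈ Finset.range (6 + 2 * m), f i + f (6 + 2 * m) + f (6 + 2 * m + 1) := by
      rw [show 6 + 2 * (m + 1) = (6 + 2 * m) + 1 + 1 by ring, Finset.sum_range_succ, Finset.sum_range_succ]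
    have h2 : ∑ s ∈ Finset.range 2, f (6 + 2 * m + s) = f (6 + 2 * m) + f (6 + 2 * m + 1) := by
      rw [Finset.sum_range_succ, Finset.sum_range_one, add_zero]
    rw [h1, ih, Finset.sum_range_succ (fun a => ∑ s ∈ Finset.range 2, f (6 + 2 * a + s)), h2]
    ring

/-- the scalar product with an exact vector -/
theorem dot_exact {R : ℝ} {U : ℕ → Fin 3 → ℝ} (hU : Exact R U) {i : ℕ} (hi : i < 6) (y : Fin 3 → ℝ) :
    ∀ l : Fin 3, i / 2 = (l : ℕ) → dot (U i) y = R * y l := by
  intro l hl
  have h0 := hU i hi 0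
  have h1 := hU i hi 1
  have h2 := hU i hi 2
  unfold dot
  rw [h0, h1, h2, hl]
  fin_cases l <;> simp

theorem dot_comm (x y : Fin 3 → ℝ) : dot x y = dot y x := by
  unfold dot; ring

/-- the six identity rows against a vector -/
theorem six (R κ δ : ℝ) (c : ℕ → ℕ) (x : Fin 3 → ℝ) (F : ℕ → ℝ)
    (hF : ∀ i < 6, ∀ l : Fin 3, i / 2 = (l : ℕ) → F i =
      |(if c (i / 2) = 0 then (if i % 2 = 0 then -(R * κ) else R * κ) else R * spv κ δ (c (i / 2))) - R * x l|) :
    ∑ i ∈ Finset.range 6, F i = ∑ l : Fin 3, pen R κ δ (c l) (x l) := by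
  have hp : ∀ l : Fin 3, pen R κ δ (c l) (x l) = F (2 * l) + F (2 * l + 1) := by
    intro l
    have hl := l.2
    rw [hF (2 * l) (by omega) l (by omega), hF (2 * l + 1) (by omega) l (by omega)]
    have e1 : 2 * (l : ℕ) / 2 = l := by omega
    have e2 : (2 * (l : ℕ) + 1) / 2 = l := by omega
    have e3 : 2 * (l : ℕ) % 2 = 0 := by omega
    have e4 : (2 * (l : ℕ) + 1) % 2 = 1 := by omega
    rw [e1, e2, e3, e4]
    unfold pen
    split_ifs <;> simp_all
  rw [Fin.sum_univ_three, hp, hp, hp]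
  simp only [Finset.sum_range_succ, Finset.sum_range_zero]
  simp
  ring

theorem ix : S_IX := by
  intro m n R κ δ rc cc kd U V hU hV
  unfold tot costV
  rw [split]
  -- the identity rows
  have hA : ∑ i ∈ Finset.range 6, ∑ j ∈ Finset.range (6 + 2 * n), |ent1 R κ δ rc cc kd i j - dot (U i) (V j)| =
      ∑ b ∈ Finset.range n, ∑ t ∈ Finset.range 2, ∑ l : Fin 3, pen R κ δ (cc b l) (V (6 + 2 * b + t) l) := by
    have h1 : ∀ i ∈ Finset.range 6, ∑ j ∈ Finset.range (6 + 2 * n), |ent1 R κ δ rc cc kd i j - dot (U i) (V j)| =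
        ∑ b ∈ Finset.range n, ∑ t ∈ Finset.range 2,
          |ent1 R κ δ rc cc kd i (6 + 2 * b + t) - dot (U i) (V (6 + 2 * b + t))| := by
      intro i hi
      rw [Finset.mem_range] at hi
      rw [split, Finset.sum_eq_zero, zero_add]
      intro j hj
      rw [Finset.mem_range] at hj
      obtain ⟨l, hl⟩ : ∃ l : Fin 3, i / 2 = (l : ℕ) := ⟨⟨i / 2, by omega⟩, rfl⟩
      rw [dot_exact hU hi (V j) l hl, hV j hj l]
      unfold ent1
      rw [if_pos hi, if_pos hj, hl]
      by_cases h : (l : ℕ) = j / 2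
      · rw [if_pos h, if_pos h.symm]
        rw [abs_eq_zero]
        ring
      · rw [if_neg h, if_neg (fun h' => h h'.symm)]
        simp
    rw [Finset.sum_congr rfl h1, Finset.sum_comm]
    refine Finset.sum_congr rfl fun b _ => ?_
    rw [Finset.sum_comm]
    refine Finset.sum_congr rfl fun t ht => ?_
    rw [Finset.mem_range] at ht
    refine six R κ δ (cc b) (V (6 + 2 * b + t)) _ ?_
    intro i hi l hl
    rw [dot_exact hU hi _ l hl]
    unfold ent1
    have e1 : (6 + 2 * b + t - 6) / 2 = b := by omega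
    rw [if_pos hi, if_neg (by omega), e1]
  -- the other rows
  have hB : ∀ a ∈ Finset.range m, ∀ s ∈ Finset.range 2,
      ∑ j ∈ Finset.range (6 + 2 * n), |ent1 R κ δ rc cc kd (6 + 2 * a + s) j - dot (U (6 + 2 * a + s)) (V j)| =
      ∑ l : Fin 3, pen R κ δ (rc a l) (U (6 + 2 * a + s) l) +
      ∑ b ∈ Finset.range n, ∑ t ∈ Finset.range 2,
        |cen (kd a b) s t - dot (U (6 + 2 * a + s)) (V (6 + 2 * b + t))| := by
    intro a _ s hs
    rw [Finset.mem_range] at hs
    rw [split]
    congr 1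
    · refine six R κ δ (rc a) (U (6 + 2 * a + s)) _ ?_
      intro j hj l hl
      rw [dot_comm, dot_exact hV hj _ l hl]
      unfold ent1
      have e1 : (6 + 2 * a + s - 6) / 2 = a := by omega
      rw [if_neg (by omega), if_pos hj, e1]
    · refine Finset.sum_congr rfl fun b _ => Finset.sum_congr rfl fun t ht => ?_
      rw [Finset.mem_range] at ht
      congr 2
      unfold ent1 cen
      have e1 : (6 + 2 * a + s - 6) / 2 = a := by omega
      have e2 : (6 + 2 * b + t - 6) / 2 = b := by omega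
      have e3 : ((6 + 2 * a + s) % 2 = (6 + 2 * b + t) % 2) ↔ s = t := by omega
      rw [if_neg (by omega), if_neg (by omega), e1, e2]
      simp only [e3]
  rw [hA, Finset.sum_congr rfl fun a ha => Finset.sum_congr rfl fun s hs => hB a ha s hs]
  have hC : ∑ a ∈ Finset.range m, ∑ s ∈ Finset.range 2, (∑ l : Fin 3, pen R κ δ (rc a l) (U (6 + 2 * a + s) l) +
      ∑ b ∈ Finset.range n, ∑ t ∈ Finset.range 2,
        |cen (kd a b) s t - dot (U (6 + 2 * a + s)) (V (6 + 2 * b + t))|) =
      ∑ a ∈ Finset.range m, ∑ s ∈ Finset.range 2, ∑ l : Fin 3, pen R κ δ (rc a l) (U (6 + 2 * a + s) l) +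
      ∑ a ∈ Finset.range m, ∑ b ∈ Finset.range n, ∑ s ∈ Finset.range 2, ∑ t ∈ Finset.range 2,
        |cen (kd a b) s t - dot (U (6 + 2 * a + s)) (V (6 + 2 * b + t))| := by
    rw [← Finset.sum_add_distrib]
    refine Finset.sum_congr rfl fun a _ => ?_
    rw [Finset.sum_add_distrib]
    congr 1
    exact Finset.sum_comm
  rw [hC]
  ring

end Pool.Agent.Q257.LR.I
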