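import Pool.Agent.Q230.LR.St

set_option autoImplicit false

/-!
# LR-NRM: normalisation of a rank three factorisation with an identity block
-/

namespace Pool.Agent.Q257.LR.N

open Pool.Agent.NPC Pool.Agent.NPC.ER
open Pool.Agent.Q230.LR

theorem spq_spv (c : ℕ) : ((spq c : ℚ) : ℝ) = spv 1 0 c := by
  unfold spq spv
  split_ifs <;> norm_num

/-- the identity block gives a resolution of the identity -/
theorem resol (U V : ℕ → Fin 3 → ℝ) (h : ∀ l l' : Fin 3, dot (U l) (V l') = if l = l' then 1 else 0)
    (x y : Fin 3 → ℝ) :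
    dot x (V 0) * dot (U 0) y + dot x (V 1) * dot (U 1) y + dot x (V 2) * dot (U 2) y = dot x y := by
  let A : Matrix (Fin 3) (Fin 3) ℝ := fun l k => U l k
  let B : Matrix (Fin 3) (Fin 3) ℝ := fun k l => V l k
  have hAB : A * B = 1 := by
    ext l l'
    rw [Matrix.mul_apply, Fin.sum_univ_three, Matrix.one_apply]
    exact h l l'
  have hBA : B * A = 1 := mul_eq_one_comm.1 hAB
  have hk : ∀ k k' : Fin 3, V 0 k * U 0 k' + V 1 k * U 1 k' + V 2 k * U 2 k' = if k = k' then 1 else 0 := by
    intro k k'
    have h1 := congrFun (congrFun hBA k) k'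
    rw [Matrix.mul_apply, Fin.sum_univ_three, Matrix.one_apply] at h1
    exact h1
  have h00 := hk 0 0
  have h01 := hk 0 1
  have h02 := hk 0 2
  have h10 := hk 1 0
  have h11 := hk 1 1
  have h12 := hk 1 2
  have h20 := hk 2 0
  have h21 := hk 2 1
  have h22 := hk 2 2
  simp only [if_true, Fin.isValue] at h00 h11 h22
  rw [if_neg (by decide)] at h01 h02 h10 h12 h20 h21
  unfold dot
  linear_combination x 0 * y 0 * h00 + x 0 * y 1 * h01 + x 0 * y 2 * h02 + x 1 * y 0 * h10 + x 1 * y 1 * h11 +
    x 1 * y 2 * h12 + x 2 * y 0 * h20 + x 2 * y 1 * h21 + x 2 * y 2 * h22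

theorem nrm : S_NRM := by
  intro m n rs cs
  constructor
  · rintro ⟨U, V, h⟩
    have hid : ∀ l l' : Fin 3, dot (U l) (V l') = if l = l' then 1 else 0 := by
      intro l l'
      have h1 := h l (by omega) l' (by omega) (if (l : ℕ) = l' then 1 else 0) (by
        unfold cell0
        rw [if_pos l.2, if_pos l'.2])
      rw [← h1]
      by_cases hl : l = l'
      · rw [if_pos hl, if_pos (by rw [hl])]
        norm_num
      · rw [if_neg hl, if_neg (fun h' => hl (Fin.ext h'))]
        norm_num
    refine ⟨fun a l => dot (U (3 + a)) (V l), fun b l => dot (U l) (V (3 + b)), ?_, ?_, ?_⟩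
    · intro a ha l
      by_cases h0 : rcd rs a l = 0
      · exact Or.inl h0
      · right
        have h1 := h (3 + a) (by omega) l (by omega) (spq (rcd rs a l)) (by
          unfold cell0
          rw [if_neg (by omega), if_pos l.2, Nat.add_sub_cancel_left]
          exact if_neg h0)
        show dot (U (3 + a)) (V l) = _
        rw [← h1]
        exact spq_spv _
    · intro b hb l
      by_cases h0 : ccd cs b l = 0
      · exact Or.inl h0
      · right
        have h1 := h l (by omega) (3 + b) (by omega) (spq (ccd cs b l)) (by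
          unfold cell0
          rw [if_pos l.2, if_neg (by omega), Nat.add_sub_cancel_left]
          exact if_neg h0)
        show dot (U l) (V (3 + b)) = _
        rw [← h1]
        exact spq_spv _
    · intro a ha b hb hG
      have h1 := h (3 + a) (by omega) (3 + b) (by omega) 0 (by
        unfold cell0
        rw [if_neg (by omega), if_neg (by omega), Nat.add_sub_cancel_left, Nat.add_sub_cancel_left]
        exact if_pos hG)
      have h2 := resol U V hid (U (3 + a)) (V (3 + b))
      rw [← h1] at h2
      show dot (U (3 + a)) (V ((0 : Fin 3) : ℕ)) * dot (U ((0 : Fin 3) : ℕ)) (V (3 + b)) +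
        dot (U (3 + a)) (V ((1 : Fin 3) : ℕ)) * dot (U ((1 : Fin 3) : ℕ)) (V (3 + b)) +
        dot (U (3 + a)) (V ((2 : Fin 3) : ℕ)) * dot (U ((2 : Fin 3) : ℕ)) (V (3 + b)) = 0
      simpa using h2
  · rintro ⟨r, w, h1, h2, h3⟩
    have hbas : ∀ (l : Fin 3) (y : Fin 3 → ℝ), dot (fun k => if (l : ℕ) = k then 1 else 0) y = y l := by
      intro l y
      fin_cases l <;> simp [dot]
    have hbas' : ∀ (l : Fin 3) (y : Fin 3 → ℝ), dot y (fun k => if (l : ℕ) = k then 1 else 0) = y l := by
      intro l y
      fin_cases l <;> simp [dot]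
    refine ⟨fun i => if i < 3 then (fun k : Fin 3 => if i = k then 1 else 0) else r (i - 3),
      fun j => if j < 3 then (fun k : Fin 3 => if j = k then 1 else 0) else w (j - 3), ?_⟩
    intro i hi j hj q hq
    unfold cell0 at hq
    by_cases hi3 : i < 3
    · by_cases hj3 : j < 3
      · rw [if_pos hi3, if_pos hj3, Option.some.injEq] at hq
        simp only [if_pos hi3, if_pos hj3]
        rw [hbas ⟨i, hi3⟩, ← hq]
        simp only
        by_cases hij : i = j
        · rw [if_pos hij, if_pos hij.symm]; norm_num
        · rw [if_neg hij, if_neg (fun h => hij h.symm)]; norm_num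
      · rw [if_pos hi3, if_neg hj3] at hq
        simp only [if_pos hi3, if_neg hj3]
        rw [hbas ⟨i, hi3⟩]
        by_cases h0 : csp (cs.getD (j - 3) (0, 0)) i = 0
        · rw [if_pos h0] at hq
          exact absurd hq (by simp)
        · rw [if_neg h0, Option.some.injEq] at hq
          have h4 := h2 (j - 3) (by omega) ⟨i, hi3⟩
          rcases h4 with h4 | h4
          · exact absurd h4 h0
          · rw [h4, ← hq]
            exact spq_spv _
    · by_cases hj3 : j < 3
      · rw [if_neg hi3, if_pos hj3] at hq
        simp only [if_neg hi3, if_pos hj3]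
        rw [hbas' ⟨j, hj3⟩]
        by_cases h0 : rsp (rs.getD (i - 3) (0, 0, 0, 0)) j = 0
        · rw [if_pos h0] at hq
          exact absurd hq (by simp)
        · rw [if_neg h0, Option.some.injEq] at hq
          have h4 := h1 (i - 3) (by omega) ⟨j, hj3⟩
          rcases h4 with h4 | h4
          · exact absurd h4 h0
          · rw [h4, ← hq]
            exact spq_spv _
      · rw [if_neg hi3, if_neg hj3] at hq
        simp only [if_neg hi3, if_neg hj3]
        by_cases hG : isG rs cs (i - 3) (j - 3) = true
        · rw [if_pos hG, Option.some.injEq] at hq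
          rw [h3 (i - 3) (by omega) (j - 3) (by omega) hG, ← hq]
          norm_num
        · rw [if_neg hG] at hq
          exact absurd hq (by simp)

end Pool.Agent.Q257.LR.N
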