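import Pool.Agent.Q230.LR.St

set_option autoImplicit false

/-!
# LR-RUN: straight-line programs with small errors; bounds
-/

namespace Pool.Agent.Q257.LR.R

open Pool.Agent.NPC Pool.Agent.NPC.ER
open Pool.Agent.Q230.LR

theorem four_cases {a : ℕ} (h : a ≤ 3) : a = 0 ∨ a = 1 ∨ a = 2 ∨ a = 3 := by omega

theorem op0 {κ : ℝ} {v : ℕ → ℝ} {g : Gt} (h : g.1 = 0) : op κ v g = cv κ g.2.2.1 := by
  unfold op; rw [if_pos h]

theorem op1 {κ : ℝ} {v : ℕ → ℝ} {g : Gt} (h : g.1 = 1) : op κ v g = (v g.2.1 + v g.2.2.1) / 2 := by
  unfold op; rw [if_neg (by omega), if_pos h]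

theorem op2 {κ : ℝ} {v : ℕ → ℝ} {g : Gt} (h : g.1 = 2) : op κ v g = - v g.2.1 := by
  unfold op; rw [if_neg (by omega), if_neg (by omega), if_pos h]

theorem op3 {κ : ℝ} {v : ℕ → ℝ} {g : Gt} (h : g.1 = 3) : op κ v g = v g.2.1 * v g.2.2.1 := by
  unfold op; rw [if_neg (by omega), if_neg (by omega), if_neg (by omega)]

theorem op_congr {κ : ℝ} {v v' : ℕ → ℝ} {g : Gt} (h : g.1 ≤ 3) (h1 : g.1 ≠ 0 → v g.2.1 = v' g.2.1)
    (h2 : g.1 = 1 ∨ g.1 = 3 → v g.2.2.1 = v' g.2.2.1) : op κ v g = op κ v' g := by
  rcases four_cases h with h0 | h0 | h0 | h0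
  · rw [op0 h0, op0 h0]
  · rw [op1 h0, op1 h0, h1 (by omega), h2 (Or.inl h0)]
  · rw [op2 h0, op2 h0, h1 (by omega)]
  · rw [op3 h0, op3 h0, h1 (by omega), h2 (Or.inr h0)]

theorem run : S_RUN := by
  intro N₀ L hL κ η c hη hc hg hlen
  have key : ∀ j, j ≤ L.length → ∃ v : ℕ → ℝ, (∀ k < N₀, v k = c k) ∧
      (∀ t < j, ∀ g, L[t]? = some g → Hld κ v g) ∧ ∀ k < N₀ + j, |v k - c k| ≤ j * η := by
    intro j
    induction j with
    | zero =>
      intro _
      refine ⟨c, fun _ _ => rfl, fun t ht => absurd ht (by omega), fun k _ => by simp⟩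
    | succ j ih =>
      intro hj
      obtain ⟨v, h1, h2, h3⟩ := ih (by omega)
      obtain ⟨g, hgj⟩ : ∃ g, L[j]? = some g := ⟨L[j], List.getElem?_eq_getElem (by omega)⟩
      obtain ⟨w1, w2, w3, w4⟩ := hL j g hgj
      have hgL : g ∈ L := List.mem_of_getElem? hgj
      set v' : ℕ → ℝ := Function.update v (N₀ + j) (op κ v g) with hv'
      have hne : ∀ k, k ≠ N₀ + j → v' k = v k := fun k hk => Function.update_of_ne hk _ _
      have heq : v' (N₀ + j) = op κ v g := Function.update_self _ _ _
      have hjη : (j : ℝ) * η ≤ 1 / 4 := by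
        have : (j : ℝ) ≤ (L.length : ℝ) := by exact_mod_cast (by omega : j ≤ L.length)
        exact (mul_le_mul_of_nonneg_right this hη).trans hlen
      refine ⟨v', ?_, ?_, ?_⟩
      · intro k hk
        rw [hne k (by omega), h1 k hk]
      · intro t ht g' hg'
        obtain ⟨u1, u2, u3, u4⟩ := hL t g' hg'
        have hop : t ≤ j → op κ v' g' = op κ v g' := by
          intro htj
          refine op_congr u1 (fun h => ?_) (fun h => ?_)
          · have := u3 h
            exact hne _ (by omega)
          · have := u4 h
            exact hne _ (by omega)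
        rcases Nat.lt_or_ge t j with htj | htj
        · have h4 := h2 t htj g' hg'
          unfold Hld at h4 ⊢
          rw [hop htj.le, u2, hne _ (by omega), ← u2]
          exact h4
        · have htj' : t = j := by omega
          subst htj'
          rw [hgj] at hg'
          have hgg : g = g' := Option.some.inj hg'
          subst hgg
          unfold Hld
          rw [hop le_rfl, u2, heq]
      · intro k hk
        have hcast : (((j + 1 : ℕ)) : ℝ) * η = j * η + η := by push_cast; ring
        rw [hcast]
        rcases Nat.lt_or_ge k (N₀ + j) with hkj | hkj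
        · rw [hne k (by omega)]
          have := h3 k hkj
          linarith
        · have hk' : k = N₀ + j := by omega
          subst hk'
          rw [heq]
          have h4 := hg g hgL
          rw [w2] at h4
          have h5 : |op κ v g - op κ c g| ≤ j * η := by
            have hj0 : 0 ≤ (j : ℝ) * η := by positivity
            rcases four_cases w1 with h0 | h0 | h0 | h0
            · rw [op0 h0, op0 h0, sub_self, abs_zero]
              exact hj0
            · have e1 := h3 _ (w3 (by omega))
              have e2 := h3 _ (w4 (Or.inl h0))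
              rw [op1 h0, op1 h0]
              rw [abs_le] at e1 e2 ⊢
              constructor <;> linarith
            · have e1 := h3 _ (w3 (by omega))
              rw [op2 h0, op2 h0]
              rw [abs_le] at e1 ⊢
              constructor <;> linarith
            · have i1 := w3 (by omega)
              have i2 := w4 (Or.inr h0)
              have e1 := h3 _ i1
              have e2 := h3 _ i2
              have b1 := hc g.2.1 (by omega)
              have b2 := hc g.2.2.1 (by omega)
              rw [op3 h0, op3 h0]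
              have e : v g.2.1 * v g.2.2.1 - c g.2.1 * c g.2.2.1 =
                  v g.2.1 * (v g.2.2.1 - c g.2.2.1) + c g.2.2.1 * (v g.2.1 - c g.2.1) := by ring
              rw [e]
              have b3 : |v g.2.1| ≤ 1 / 2 := by
                have := abs_sub_abs_le_abs_sub (v g.2.1) (c g.2.1)
                linarith
              refine (abs_add_le _ _).trans ?_
              rw [abs_mul, abs_mul]
              have m1 : |v g.2.1| * |v g.2.2.1 - c g.2.2.1| ≤ 1 / 2 * (j * η) :=
                mul_le_mul b3 e2 (abs_nonneg _) (by norm_num)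
              have m2 : |c g.2.2.1| * |v g.2.1 - c g.2.1| ≤ 1 / 4 * (j * η) :=
                mul_le_mul b2 e1 (abs_nonneg _) (by norm_num)
              linarith
          have h6 := abs_sub_le (op κ v g) (op κ c g) (c (N₀ + j))
          rw [abs_sub_comm (op κ c g)] at h6
          linarith
  obtain ⟨v, h1, h2, h3⟩ := key L.length le_rfl
  refine ⟨v, h1, ?_, h3⟩
  intro g hgL
  obtain ⟨t, ht, rfl⟩ := List.mem_iff_getElem.1 hgL
  exact h2 t ht _ (List.getElem?_eq_getElem ht)

theorem cv_le {κ : ℝ} (h : 0 ≤ κ) (j : ℕ) : |cv κ j| ≤ κ := by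
  unfold cv
  split_ifs
  · rw [abs_of_nonneg h]
  · rw [abs_of_nonneg (by positivity)]
    linarith
  · rw [abs_zero]; exact h

theorem bdd : S_BDD := by
  intro N₀ L hL κ v hκ0 hκ1 hH hv k
  induction k using Nat.strong_induction_on with
  | _ k ih =>
    intro hk
    rcases Nat.lt_or_ge k N₀ with hk0 | hk0
    · exact hv k hk0
    · obtain ⟨t, rfl⟩ : ∃ t, k = N₀ + t := ⟨k - N₀, by omega⟩
      have ht : t < L.length := by omega
      have hgt : L[t]? = some L[t] := List.getElem?_eq_getElem ht
      obtain ⟨w1, w2, w3, w4⟩ := hL t _ hgt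
      have hh := hH _ (List.getElem_mem ht)
      unfold Hld at hh
      rw [w2] at hh
      rw [hh]
      set g := L[t] with hg
      rcases four_cases w1 with h0 | h0 | h0 | h0
      · rw [op0 h0]
        exact cv_le hκ0 _
      · have i1 := w3 (by omega)
        have i2 := w4 (Or.inl h0)
        have e1 := ih _ i1 (by omega)
        have e2 := ih _ i2 (by omega)
        rw [op1 h0]
        rw [abs_le] at e1 e2 ⊢
        constructor <;> linarith
      · have i1 := w3 (by omega)
        have e1 := ih _ i1 (by omega)
        rw [op2 h0, abs_neg]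
        exact e1
      · have i1 := w3 (by omega)
        have i2 := w4 (Or.inr h0)
        have e1 := ih _ i1 (by omega)
        have e2 := ih _ i2 (by omega)
        rw [op3 h0, abs_mul]
        have := mul_le_mul e1 e2 (abs_nonneg _) hκ0
        nlinarith

end Pool.Agent.Q257.LR.R
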