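import Pool.Agent.Q257.LR.WF
import Pool.Agent.Q257.LR.RUN

set_option autoImplicit false

/-!
# LR-SLP: satisfiability of a system against the sign of the output of a straight-line program
-/

namespace Pool.Agent.Q257.LR.S

open Pool.Agent.NPC Pool.Agent.NPC.ER
open Pool.Agent.Q230.LR
open Pool.Agent.Q257.LR.R

/-- a program can be run -/
theorem exists_run {N₀ : ℕ} {L : List Gt} (hL : Wf N₀ L) (κ : ℝ) (c : ℕ → ℝ) :
    ∃ v : ℕ → ℝ, (∀ k < N₀, v k = c k) ∧ ∀ g ∈ L, Hld κ v g := by
  have key : ∀ j, j ≤ L.length → ∃ v : ℕ → ℝ, (∀ k < N₀, v k = c k) ∧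
      (∀ t < j, ∀ g, L[t]? = some g → Hld κ v g) := by
    intro j
    induction j with
    | zero =>
      intro _
      exact ⟨c, fun _ _ => rfl, fun t ht => absurd ht (by omega)⟩
    | succ j ih =>
      intro hj
      obtain ⟨v, h1, h2⟩ := ih (by omega)
      obtain ⟨g, hgj⟩ : ∃ g, L[j]? = some g := ⟨L[j], List.getElem?_eq_getElem (by omega)⟩
      obtain ⟨w1, w2, w3, w4⟩ := hL j g hgj
      set v' : ℕ → ℝ := Function.update v (N₀ + j) (op κ v g) with hv'
      have hne : ∀ k, k ≠ N₀ + j → v' k = v k := fun k hk => Function.update_of_ne hk _ _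
      have heq : v' (N₀ + j) = op κ v g := Function.update_self _ _ _
      refine ⟨v', ?_, ?_⟩
      · intro k hk
        rw [hne k (by omega), h1 k hk]
      · intro t ht g' hg'
        obtain ⟨u1, u2, u3, u4⟩ := hL t g' hg'
        have hop : t ≤ j → op κ v' g' = op κ v g' := by
          intro htj
          refine op_congr u1 (fun h => ?_) (fun h => ?_)
          · have := u3 h
            exact hne _ (by omega)
          · have := u4 h
            exact hne _ (by omega)
        rcases Nat.lt_or_ge t j with htj | htj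
        · have h4 := h2 t htj g' hg'
          unfold Hld at h4 ⊢
          rw [hop htj.le, u2, hne _ (by omega), ← u2]
          exact h4
        · have htj' : t = j := by omega
          subst htj'
          rw [hgj] at hg'
          have hgg : g = g' := Option.some.inj hg'
          subst hgg
          unfold Hld
          rw [hop le_rfl, u2, heq]
  obtain ⟨v, h1, h2⟩ := key L.length le_rfl
  refine ⟨v, h1, ?_⟩
  intro g hgL
  obtain ⟨t, ht, rfl⟩ := List.mem_iff_getElem.1 hgL
  exact h2 t ht _ (List.getElem?_eq_getElem ht)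

theorem mem_pre {T : List Con} {g : Gt} (h : g ∈ pre T) : g ∈ gates1 T := by
  unfold gates1
  rw [List.mem_append, List.mem_append]
  exact Or.inl (Or.inl h)

theorem mem_blk {T : List Con} {c : Con} {p : ℕ} {g : Gt} (hp : T[p]? = some c)
    (h : g ∈ blk T c (bas T + 6 * p)) : g ∈ gates1 T := by
  unfold gates1
  rw [List.mem_append, List.mem_append]
  refine Or.inl (Or.inr ?_)
  rw [List.mem_flatMap]
  exact ⟨(c, p), List.mem_zipIdx_iff_getElem?.2 hp, h⟩

theorem mem_last {T : List Con} :
    ((1, bas T + 6 * T.length - 1, (svars T).length + 3 + sqn T, bas T + 6 * T.length) : Gt) ∈ gates1 T := by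
  unfold gates1
  rw [List.mem_append]
  right
  simp

/-- the value of a constraint in its block -/
noncomputable def rr (T : List Con) (κ : ℝ) (v : ℕ → ℝ) : Con → ℝ
  | ER.Con.one i => (v (ri T i) / 2 - κ / 16) / 2
  | ER.Con.add i j k => ((v (ri T i) + v (ri T j)) / 2 - v (ri T k) / 2) / 2
  | ER.Con.mul i j k => (v (ri T i) * v (ri T j) - κ * v (ri T k)) / 2

/-- the values of the first gates -/
theorem vals {T : List Con} {κ : ℝ} {v : ℕ → ℝ} (h : ∀ g ∈ gates1 T, Hld κ v g) :
    v (svars T).length = κ / 8 ∧ v ((svars T).length + 1) = κ ∧ v ((svars T).length + 2) = 0 ∧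
    v ((svars T).length + 3 + sqn T) = - κ ^ 2 ^ sqn T ∧ v ((svars T).length + 4 + sqn T) = 0 := by
  set n := (svars T).length with hn
  set q := sqn T with hq
  have hq0 : 0 < q := by rw [hq]; unfold sqn; omega
  have h0 : v n = κ / 8 := by
    have := h (0, 0, 1, n) (mem_pre (by unfold pre; simp [hn]))
    simpa [Hld, op, cv] using this
  have h1 : v (n + 1) = κ := by
    have := h (0, 0, 8, n + 1) (mem_pre (by unfold pre; simp [hn]))
    simpa [Hld, op, cv] using this
  have h2 : v (n + 2) = 0 := by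
    have := h (0, 0, 0, n + 2) (mem_pre (by unfold pre; simp [hn]))
    simpa [Hld, op, cv] using this
  have hg : ∀ j < q, Hld κ v (3, if j = 0 then n + 1 else n + 2 + j, if j = 0 then n + 1 else n + 2 + j, n + 3 + j) := by
    intro j hj
    refine h _ (mem_pre ?_)
    unfold pre
    rw [List.mem_append, List.mem_append]
    refine Or.inl (Or.inr ?_)
    rw [List.mem_map]
    exact ⟨j, List.mem_range.2 hj, rfl⟩
  have h3 : ∀ j < q, v (n + 3 + j) = κ ^ 2 ^ (j + 1) := by
    intro j
    induction j with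
    | zero =>
      intro hj
      have := hg 0 hj
      simp only [Hld, op] at this
      norm_num at this
      rw [this, h1]
      ring
    | succ j ih =>
      intro hj
      have h4 := ih (by omega)
      have := hg (j + 1) hj
      simp only [Hld, op] at this
      norm_num at this
      rw [this]
      have e : n + 2 + (j + 1) = n + 3 + j := by ring
      rw [e, h4, ← pow_add]
      congr 1
      rw [pow_succ 2 (j + 1)]
      ring
  have h4 : v (n + 3 + q) = - κ ^ 2 ^ q := by
    have := h (2, n + 2 + q, 0, n + 3 + q) (mem_pre (by unfold pre; simp [hn, hq]))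
    simp only [Hld, op] at this
    norm_num at this
    rw [this]
    have e : n + 2 + q = n + 3 + (q - 1) := by omega
    rw [e, h3 (q - 1) (by omega), Nat.sub_add_cancel hq0]
  have h5 : v (n + 4 + q) = 0 := by
    have := h (0, 0, 0, n + 4 + q) (mem_pre (by unfold pre; simp [hn, hq]))
    simpa [Hld, op, cv] using this
  exact ⟨h0, h1, h2, h4, h5⟩

/-- the recursion for the sums -/
theorem rec_val {T : List Con} {κ : ℝ} {v : ℕ → ℝ} (h : ∀ g ∈ gates1 T, Hld κ v g) {p : ℕ} {c : Con}
    (hp : T[p]? = some c) :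
    v (bas T + 6 * p + 5) = (v (bas T + 6 * p - 1) + rr T κ v c ^ 2) / 2 := by
  obtain ⟨h0, h1, h2, h3, h4⟩ := vals h
  set Q := bas T + 6 * p with hQ
  have g2 := h (2, Q + 1, 0, Q + 2) (mem_blk hp (by unfold blk; simp [hQ]))
  have g3 := h (1, Q, Q + 2, Q + 3) (mem_blk hp (by unfold blk; simp [hQ]))
  have g4 := h (3, Q + 3, Q + 3, Q + 4) (mem_blk hp (by unfold blk; simp [hQ]))
  have g5 := h (1, Q - 1, Q + 4, Q + 5) (mem_blk hp (by unfold blk; simp [hQ]))
  simp only [Hld, op] at g2 g3 g4 g5
  norm_num at g2 g3 g4 g5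
  have hr : v (Q + 3) = rr T κ v c := by
    rw [g3, g2]
    cases c with
    | one i =>
      have a0 := h (1, ri T i, (svars T).length + 2, Q) (mem_blk hp (by unfold blk two; simp [hQ]))
      have a1 := h (1, (svars T).length, (svars T).length + 2, Q + 1) (mem_blk hp (by unfold blk two; simp [hQ]))
      simp only [Hld, op] at a0 a1
      norm_num at a0 a1
      rw [a0, a1, h0, h2]
      unfold rr
      ring
    | add i j k =>
      have a0 := h (1, ri T i, ri T j, Q) (mem_blk hp (by unfold blk two; simp [hQ]))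
      have a1 := h (1, ri T k, (svars T).length + 2, Q + 1) (mem_blk hp (by unfold blk two; simp [hQ]))
      simp only [Hld, op] at a0 a1
      norm_num at a0 a1
      rw [a0, a1, h2]
      unfold rr
      ring
    | mul i j k =>
      have a0 := h (3, ri T i, ri T j, Q) (mem_blk hp (by unfold blk two; simp [hQ]))
      have a1 := h (3, (svars T).length + 1, ri T k, Q + 1) (mem_blk hp (by unfold blk two; simp [hQ]))
      simp only [Hld, op] at a0 a1
      norm_num at a0 a1
      rw [a0, a1, h1]
      unfold rr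
      ring
  rw [g5, g4, hr]
  ring

theorem out_val {T : List Con} {κ : ℝ} {v : ℕ → ℝ} (h : ∀ g ∈ gates1 T, Hld κ v g) :
    v (out1 T) = (v (bas T + 6 * T.length - 1) - κ ^ 2 ^ sqn T) / 2 := by
  obtain ⟨h0, h1, h2, h3, h4⟩ := vals h
  have g := h _ (mem_last (T := T))
  simp only [Hld, op] at g
  norm_num at g
  have e : out1 T = bas T + 6 * T.length := rfl
  rw [e, g, h3]
  ring

/-- the numerical inequality -/
theorem num_ineq (M : ℕ) : 10 + M + 2 * 2 ^ gapK M ≤ 3 * (2 ^ (gapK M + M + 5) - 4) := by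
  have h1 : 128 ≤ 2 ^ gapK M := by
    calc 128 = 2 ^ 7 := by norm_num
      _ ≤ 2 ^ gapK M := Nat.pow_le_pow_right (by norm_num) (by unfold gapK; omega)
  have h2 : M + 1 ≤ 2 ^ M := Nat.lt_two_pow_self
  have h3 : 2 ^ (gapK M + M + 5) = 32 * (2 ^ gapK M * 2 ^ M) := by
    rw [pow_add, pow_add]; ring
  rw [h3]
  set A := 2 ^ gapK M
  set B := 2 ^ M
  have h4 : A * (M + 1) ≤ A * B := Nat.mul_le_mul_left _ h2
  have h5 : 128 * (M + 1) ≤ A * (M + 1) := Nat.mul_le_mul_right _ h1
  have h6 : A ≤ A * B := Nat.le_mul_of_pos_right _ (by omega)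
  omega

/-- the last estimate -/
theorem est {M m G : ℕ} (hmG : 10 + M + 2 * G ≤ 3 * m) {κ E R : ℝ} (hκ : 0 < κ) (hκ8 : κ ≤ 1 / 8)
    (hE0 : 0 ≤ E) (h3 : (E * κ ^ 2) ^ 2 ≤ 1024 * R) (h1 : R ≤ 2 ^ M * (κ ^ 4 * κ ^ m)) :
    E * 2 ^ G ≤ 1 := by
  have h6 : κ ^ m ≤ (1 / 8) ^ m := pow_le_pow_left₀ hκ.le hκ8 _
  have hm : (1 / 8 : ℝ) ^ m = 1 / 2 ^ (3 * m) := by
    rw [pow_mul, one_div_pow]; norm_num
  rw [hm] at h6
  have h12 : (2 : ℝ) ^ (10 + M + 2 * G) ≤ 2 ^ (3 * m) := pow_le_pow_right₀ (by norm_num) hmG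
  have h10 : (2 : ℝ) ^ (10 + M + 2 * G) = 1024 * 2 ^ M * (2 ^ G) ^ 2 := by
    rw [pow_add, pow_add, ← pow_mul, mul_comm 2 G]
    norm_num
  rw [h10] at h12
  have hB : (0 : ℝ) < 2 ^ (3 * m) := by positivity
  have hC : (0 : ℝ) < 2 ^ G := by positivity
  have hD : (0 : ℝ) < 2 ^ M := by positivity
  have hK : (0 : ℝ) < κ ^ m := by positivity
  generalize (2 : ℝ) ^ (3 * m) = B at *
  generalize (2 : ℝ) ^ G = C at *
  generalize (2 : ℝ) ^ M = D at *
  generalize κ ^ m = K at *
  have h5 : E ^ 2 ≤ 1024 * D * K := by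
    have h6 : κ ^ 4 * E ^ 2 ≤ κ ^ 4 * (1024 * D * K) := by
      have h7 : (E * κ ^ 2) ^ 2 = κ ^ 4 * E ^ 2 := by ring
      have h8 : κ ^ 4 * (1024 * D * K) = 1024 * (D * (κ ^ 4 * K)) := by ring
      rw [← h7, h8]
      linarith
    exact le_of_mul_le_mul_left h6 (by positivity)
  have h8 : (E * C) ^ 2 ≤ 1 := by
    have a1 : (E * C) ^ 2 ≤ 1024 * D * K * C ^ 2 := by
      rw [mul_pow]
      exact mul_le_mul_of_nonneg_right h5 (by positivity)
    have a2 : 1024 * D * K * C ^ 2 ≤ 1024 * D * C ^ 2 * (1 / B) := by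
      have := mul_le_mul_of_nonneg_left h6 (by positivity : (0 : ℝ) ≤ 1024 * D * C ^ 2)
      calc 1024 * D * K * C ^ 2 = 1024 * D * C ^ 2 * K := by ring
        _ ≤ _ := this
    have a3 : 1024 * D * C ^ 2 * (1 / B) ≤ 1 := by
      rw [mul_one_div, div_le_one hB]
      exact h12
    linarith
  exact (sq_le_one_iff₀ (by positivity)).1 h8

/-- the errors of the constraints -/
theorem con_est {T : List Con} {κ : ℝ} {v w : ℕ → ℝ} (hκ : 0 < κ) (hκ8 : κ ≤ 1 / 8)
    (hvw : ∀ i, v (ri T i) = κ * w i) (c : Con) :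
    (|c.err w| * κ ^ 2) ^ 2 ≤ 1024 * rr T κ v c ^ 2 := by
  have hk1 : κ ^ 2 ≤ κ := by nlinarith
  have h2 : |c.err w| * κ ^ 2 ≤ 32 * |rr T κ v c| := by
    cases c with
    | one i =>
      simp only [rr, ER.Con.err]
      rw [hvw i]
      have e : (κ * w i / 2 - κ / 16) / 2 = κ / 32 * (8 * w i - 1) := by ring
      rw [e, abs_mul, abs_of_pos (by positivity : 0 < κ / 32)]
      have h4 := mul_le_mul_of_nonneg_left hk1 (abs_nonneg (8 * w i - 1))
      linarith
    | add i j k =>
      simp only [rr, ER.Con.err]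
      rw [hvw i, hvw j, hvw k]
      have e : ((κ * w i + κ * w j) / 2 - κ * w k / 2) / 2 = κ / 4 * (w i + w j - w k) := by ring
      rw [e, abs_mul, abs_of_pos (by positivity : 0 < κ / 4)]
      have h4 := mul_le_mul_of_nonneg_left hk1 (abs_nonneg (w i + w j - w k))
      have h5 : 0 ≤ κ * |w i + w j - w k| := by positivity
      linarith
    | mul i j k =>
      simp only [rr, ER.Con.err]
      rw [hvw i, hvw j, hvw k]
      have e : (κ * w i * (κ * w j) - κ * (κ * w k)) / 2 = κ ^ 2 / 2 * (w i * w j - w k) := by ring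
      rw [e, abs_mul, abs_of_pos (by positivity : 0 < κ ^ 2 / 2)]
      have h5 : 0 ≤ κ ^ 2 * |w i * w j - w k| := by positivity
      linarith
  have h4 := pow_le_pow_left₀ (by positivity) h2 2
  rw [mul_pow 32, sq_abs] at h4
  linarith

theorem slp : S_SLP := by
  intro S κ hκ hκ8
  set T := bsys S with hT
  set n := (svars T).length with hn
  have hvars : ∀ c ∈ T, ∀ i ∈ c.vars, ri T i < n := fun c hc i hi =>
    List.idxOf_lt_length_of_mem (mem_svars hc hi)
  have hbas : bas T - 1 = n + 4 + sqn T := by unfold bas; omega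
  have hbas1 : 1 ≤ bas T := by unfold bas; omega
  constructor
  · intro hS
    obtain ⟨w, hw, hc⟩ := bsys_of_sat_const (κ := 1 / 8) (by norm_num) le_rfl hS
    obtain ⟨v, hv1, hv2⟩ := exists_run (Pool.Agent.Q257.LR.W.wf T).1 κ
      (fun k => if h : k < (svars T).length then κ * w ((svars T)[k]) else 0)
    have hvi : ∀ i ∈ svars T, v (ri T i) = κ * w i := by
      intro i hi
      have hlt : ri T i < (svars T).length := List.idxOf_lt_length_of_mem hi
      rw [hv1 _ hlt, dif_pos hlt]
      congr 2
      exact List.getElem_idxOf hlt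
    refine ⟨v, hv2, ?_, ?_⟩
    · intro k hk
      rw [hv1 k hk, dif_pos hk, abs_mul, abs_of_pos hκ]
      have := hw ((svars T)[k])
      nlinarith
    · have hr : ∀ c ∈ T, rr T κ v c = 0 := by
        intro c hcT
        have hh := hc c hcT
        have hm : ∀ i ∈ c.vars, v (ri T i) = κ * w i := fun i hi => hvi i (mem_svars hcT hi)
        cases c with
        | one i =>
          have e1 := hm i (by simp [ER.Con.vars])
          simp only [ER.Con.HoldsC] at hh
          simp only [rr]
          rw [e1, hh]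
          ring
        | add i j k =>
          have e1 := hm i (by simp [ER.Con.vars])
          have e2 := hm j (by simp [ER.Con.vars])
          have e3 := hm k (by simp [ER.Con.vars])
          simp only [ER.Con.HoldsC] at hh
          simp only [rr]
          rw [e1, e2, e3, ← hh]
          ring
        | mul i j k =>
          have e1 := hm i (by simp [ER.Con.vars])
          have e2 := hm j (by simp [ER.Con.vars])
          have e3 := hm k (by simp [ER.Con.vars])
          simp only [ER.Con.HoldsC] at hh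
          simp only [rr]
          rw [e1, e2, e3, ← hh]
          ring
      have hs : ∀ p ≤ T.length, v (bas T + 6 * p - 1) = 0 := by
        intro p
        induction p with
        | zero =>
          intro _
          rw [mul_zero, add_zero, hbas]
          exact (vals hv2).2.2.2.2
        | succ p ih =>
          intro hp
          have hp' : p < T.length := by omega
          have h1 := rec_val hv2 (List.getElem?_eq_getElem hp')
          rw [ih (by omega), hr _ (List.getElem_mem hp')] at h1
          have e : bas T + 6 * (p + 1) - 1 = bas T + 6 * p + 5 := by omega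
          rw [e, h1]
          ring
      rw [out_val hv2, hs T.length le_rfl]
      have : 0 < κ ^ 2 ^ sqn T := by positivity
      linarith
  · rintro ⟨v, hv2, hv3, hv4⟩
    set M := T.length with hM
    set w : ℕ → ℝ := fun i => v (ri T i) / κ with hw
    have hvw : ∀ i, v (ri T i) = κ * w i := by
      intro i
      simp only [hw]
      field_simp
    rw [out_val hv2] at hv4
    have hsM : v (bas T + 6 * M - 1) < κ ^ 2 ^ sqn T := by linarith
    -- the sums are nonnegative
    have hs0 : ∀ p ≤ M, 0 ≤ v (bas T + 6 * p - 1) := by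
      intro p
      induction p with
      | zero =>
        intro _
        rw [mul_zero, add_zero, hbas, (vals hv2).2.2.2.2]
      | succ p ih =>
        intro hp
        have hp' : p < T.length := by omega
        have h1 := rec_val hv2 (List.getElem?_eq_getElem hp')
        have e : bas T + 6 * (p + 1) - 1 = bas T + 6 * p + 5 := by omega
        rw [e, h1]
        have := ih (by omega)
        have := sq_nonneg (rr T κ v T[p])
        linarith
    have hs1 : ∀ p, ∀ hp : p < T.length, ∀ d, p + 1 + d ≤ M →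
        rr T κ v T[p] ^ 2 / 2 ^ (1 + d) ≤ v (bas T + 6 * (p + 1 + d) - 1) := by
      intro p hp d
      induction d with
      | zero =>
        intro _
        have h1 := rec_val hv2 (List.getElem?_eq_getElem hp)
        have e : bas T + 6 * (p + 1 + 0) - 1 = bas T + 6 * p + 5 := by omega
        rw [e, h1]
        have := hs0 p (by omega)
        norm_num
        linarith
      | succ d ih =>
        intro hd
        have hp' : p + 1 + d < T.length := by omega
        have h1 := rec_val hv2 (List.getElem?_eq_getElem hp')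
        have e : bas T + 6 * (p + 1 + (d + 1)) - 1 = bas T + 6 * (p + 1 + d) + 5 := by omega
        rw [e, h1]
        have h2 := ih (by omega)
        have h3 := sq_nonneg (rr T κ v T[p + 1 + d])
        have e2 : rr T κ v T[p] ^ 2 / 2 ^ (1 + (d + 1)) = (rr T κ v T[p] ^ 2 / 2 ^ (1 + d)) / 2 := by
          rw [← add_assoc, pow_succ (2 : ℝ) (1 + d), div_div]
        rw [e2]
        linarith
    have hrsq : ∀ p, ∀ hp : p < T.length, rr T κ v T[p] ^ 2 ≤ 2 ^ M * κ ^ 2 ^ sqn T := by
      intro p hp
      have h1 := hs1 p hp (M - (p + 1)) (by omega)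
      have e : p + 1 + (M - (p + 1)) = M := by omega
      rw [e] at h1
      have h2 : rr T κ v T[p] ^ 2 / 2 ^ (1 + (M - (p + 1))) ≤ κ ^ 2 ^ sqn T := h1.trans hsM.le
      rw [div_le_iff₀ (by positivity)] at h2
      have h3 : (2 : ℝ) ^ (1 + (M - (p + 1))) ≤ 2 ^ M := pow_le_pow_right₀ (by norm_num) (by omega)
      have h4 : κ ^ 2 ^ sqn T * 2 ^ (1 + (M - (p + 1))) ≤ κ ^ 2 ^ sqn T * 2 ^ M :=
        mul_le_mul_of_nonneg_left h3 (by positivity)
      linarith
    have hq4 : 4 ≤ 2 ^ sqn T := by
      have h5 : 2 ^ 2 ≤ 2 ^ sqn T := Nat.pow_le_pow_right (by norm_num) (by unfold sqn; omega)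
      omega
    have hkp : κ ^ 2 ^ sqn T = κ ^ 4 * κ ^ (2 ^ sqn T - 4) := by
      rw [← pow_add]
      congr 1
      omega
    rw [hkp] at hrsq
    have herr : ∀ c ∈ T, |c.err w| * 2 ^ 2 ^ gapK M ≤ 1 := by
      intro c hc
      obtain ⟨p, hp, rfl⟩ := List.mem_iff_getElem.1 hc
      exact est (num_ineq M) hκ hκ8 (abs_nonneg _) (con_est hκ hκ8 hvw _) (hrsq p hp)
    have hw1 : ∀ i ∈ svars T, |w i| ≤ 1 := by
      intro i hi
      have hlt : ri T i < (svars T).length := List.idxOf_lt_length_of_mem hi
      have := hv3 _ hlt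
      simp only [hw]
      rw [abs_div, abs_of_pos hκ, div_le_one hκ]
      exact this
    obtain ⟨w', hw'⟩ := holds_of_approx hw1 herr
    exact sat_of_bsys hw'

end Pool.Agent.Q257.LR.S
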