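import Pool.Agent.Q230.LR.St

set_option autoImplicit false

/-!
# LR-VEA, LR-PS1: the averages of the two copies; the value of `Psi` for equal copies
-/

namespace Pool.Agent.Q257.LR.VA

open Pool.Agent.NPC Pool.Agent.NPC.ER
open Pool.Agent.Q230.LR

theorem lenF (N : ℕ) :
    ((List.range N).flatMap fun j => [((0 : ℕ), j), (1, j), (2, j), (3, j)]).length = 4 * N := by
  induction N with
  | zero => simp
  | succ N ih =>
    rw [List.range_succ, List.flatMap_append, List.length_append, ih]
    simp
    ring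

theorem getF (N b : ℕ) (hb : b < 4 * N) :
    ((List.range N).flatMap fun j => [((0 : ℕ), j), (1, j), (2, j), (3, j)]).getD b (0, 0) =
      (b % 4, b / 4) := by
  induction N with
  | zero => omega
  | succ N ih =>
    rw [List.range_succ, List.flatMap_append]
    rcases Nat.lt_or_ge b (4 * N) with h | h
    · rw [List.getD_append _ _ _ _ (by rw [lenF]; exact h)]
      exact ih h
    · rw [List.getD_append_right _ _ _ _ (by rw [lenF]; exact h), lenF]
      obtain ⟨r, rfl⟩ : ∃ r, b = 4 * N + r := ⟨b - 4 * N, by omega⟩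
      have hr : r < 4 := by omega
      have e : 4 * N + r - 4 * N = r := by omega
      have e1 : (4 * N + r) % 4 = r := by omega
      have e2 : (4 * N + r) / 4 = N := by omega
      rw [e, e1, e2]
      interval_cases r <;> simp

theorem len_cls1 (N : ℕ) : (cls1 N).length = 4 * N + 3 := by
  unfold cls1 cls
  rw [List.length_append, List.length_append, lenF]
  simp

theorem get_cls1_lt {N b : ℕ} (hb : b < 4 * N) : (cls1 N).getD b (0, 0) = (b % 4, b / 4) := by
  unfold cls1 cls
  rw [List.getD_append _ _ _ _ (by rw [List.length_append, lenF]; omega),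
    List.getD_append _ _ _ _ (by rw [lenF]; exact hb)]
  exact getF N b hb

theorem get_cls1_last (N : ℕ) : (cls1 N).getD (4 * N + 2) (0, 0) = (6, 0) := by
  unfold cls1
  have hl : (cls N).length = 4 * N + 2 := by
    unfold cls
    rw [List.length_append, lenF]
    simp
  rw [List.getD_append_right _ _ _ _ (by rw [hl]), hl]
  simp

theorem get_cls1_three {N b : ℕ} (hb : b < 4 * N + 3) (h : ((cls1 N).getD b (0, 0)).1 = 3) :
    ∃ j < N, b = 4 * j + 3 := by
  rcases Nat.lt_or_ge b (4 * N) with h1 | h1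
  · rw [get_cls1_lt h1] at h
    simp only at h
    exact ⟨b / 4, by omega, by omega⟩
  · exfalso
    obtain ⟨r, rfl⟩ : ∃ r, b = 4 * N + r := ⟨b - 4 * N, by omega⟩
    have hr : r < 3 := by omega
    unfold cls1 cls at h
    rw [List.append_assoc, List.getD_append_right _ _ _ _ (by rw [lenF]; omega), lenF] at h
    have e : 4 * N + r - 4 * N = r := by omega
    rw [e] at h
    interval_cases r <;> simp at h

theorem len_rws (N : ℕ) (L : List Gt) : (rws N L).length = 2 * N + L.length := by
  unfold rws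
  simp
  ring

theorem get_rws_four {N : ℕ} {L : List Gt} {j : ℕ} (hj : j < N) :
    (rws N L).getD j (0, 0, 0, 0) = (4, j, j, j) := by
  unfold rws
  rw [List.getD_append _ _ _ _ (by simp; omega), List.getD_append _ _ _ _ (by simpa using hj)]
  rw [List.getD_eq_getElem _ _ (by simpa using hj)]
  simp

theorem get_rws_five {N : ℕ} {L : List Gt} {j : ℕ} (hj : j < N) :
    (rws N L).getD (N + j) (0, 0, 0, 0) = (5, j, j, j) := by
  unfold rws
  rw [List.getD_append _ _ _ _ (by simp; omega), List.getD_append_right _ _ _ _ (by simp)]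
  rw [List.length_map, List.length_range, Nat.add_sub_cancel_left,
    List.getD_eq_getElem _ _ (by simpa using hj)]
  simp

theorem not_mem_gset (g : Gt) : ((6, 0) : ℕ × ℕ) ∉ gset g := by
  unfold gset
  split_ifs <;> simp

theorem isG_last (N : ℕ) (L : List Gt) (a : ℕ) : isG (rws N L) (cls1 N) a (4 * N + 2) = false := by
  unfold isG
  rw [get_cls1_last]
  exact decide_eq_false (not_mem_gset _)

/-- the sum over the cells of the terms supported at the target cell -/
theorem sum_target {m n a₀ b₀ : ℕ} (ha : a₀ < m) (hb : b₀ < n) (T : ℝ) :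
    ∑ a ∈ Finset.range m, ∑ b ∈ Finset.range n, (if a = a₀ ∧ b = b₀ then T else 0) = T := by
  rw [Finset.sum_eq_single a₀, Finset.sum_eq_single b₀]
  · simp
  · intro b _ hne
    rw [if_neg (fun h => hne h.2)]
  · intro h
    exact absurd (Finset.mem_range.2 hb) h
  · intro a _ hne
    exact Finset.sum_eq_zero fun b _ => if_neg (fun h => hne h.1)
  · intro h
    exact absurd (Finset.mem_range.2 ha) h

theorem ps1 : S_PS1 := by
  intro N L hN r w h
  have hn : (cls1 N).length - 1 = 4 * N + 2 := by rw [len_cls1]; omega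
  have hm : N - 1 < (rws N L).length := by rw [len_rws]; omega
  have hn1 : 4 * N + 2 < (cls1 N).length := by rw [len_cls1]; omega
  rw [hn]
  unfold Psi
  rw [← sum_target hm hn1 (4 * dot (r (N - 1)) (w (4 * N + 2)))]
  refine Finset.sum_congr rfl fun a ha => Finset.sum_congr rfl fun b hb => ?_
  rw [Finset.mem_range] at ha hb
  unfold knd
  rw [hn]
  by_cases hG : isG (rws N L) (cls1 N) a b = true
  · have hne : ¬ (a = N - 1 ∧ b = 4 * N + 2) := by
      rintro ⟨rfl, rfl⟩
      rw [isG_last] at hG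
      exact absurd hG (by simp)
    rw [if_pos (by rw [if_pos hG]), if_neg hne]
    simp [h a ha b hb hG]
  · by_cases hT : a = N - 1 ∧ b = 4 * N + 2
    · rw [if_neg (by rw [if_neg hG, if_pos hT]; norm_num), if_pos (by rw [if_neg hG, if_pos hT]),
        if_pos hT]
      obtain ⟨rfl, rfl⟩ := hT
      simp only [Finset.sum_const, Finset.card_range, nsmul_eq_mul]
      push_cast
      ring
    · rw [if_neg (by rw [if_neg hG, if_neg hT]; norm_num),
        if_neg (by rw [if_neg hG, if_neg hT]; norm_num), if_neg hT]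
      simp [dot, dif]

theorem rsp_two (g : Gt) : rsp g 2 ≠ 0 := by
  unfold rsp
  split_ifs <;> simp_all

theorem csp_one (c : ℕ × ℕ) : csp c 1 ≠ 0 := by
  unfold csp
  split_ifs <;> simp_all

theorem csp_zero {c : ℕ × ℕ} (h : c.1 ≠ 3) : csp c 0 ≠ 0 := by
  unfold csp
  split_ifs <;> simp_all

theorem inBox_avg {γ δ B : ℝ} {c : ℕ} {x y : ℝ} (hx : InBox γ δ B c x) (hy : InBox γ δ B c y) :
    InBox γ δ B c ((x + y) / 2) := by
  unfold InBox at *
  split_ifs at * with h
  · rw [abs_le] at *
    constructor <;> linarith [hx.1, hx.2, hy.1, hy.2]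
  · rw [hx, hy]; ring

theorem inBox_known {γ δ B : ℝ} {c : ℕ} {x y : ℝ} (hc : c ≠ 0) (hx : InBox γ δ B c x)
    (hy : InBox γ δ B c y) : x - y = 0 := by
  unfold InBox at *
  rw [if_neg hc] at hx hy
  rw [hx, hy, sub_self]

theorem inBox_dif {γ δ B : ℝ} (hB : 0 ≤ B) {c : ℕ} {x y : ℝ} (hx : InBox γ δ B c x)
    (hy : InBox γ δ B c y) : |x - y| ≤ 2 * B := by
  by_cases hc : c = 0
  · unfold InBox at *
    rw [if_pos hc] at hx hy
    rw [abs_le] at *
    constructor <;> linarith [hx.1, hx.2, hy.1, hy.2]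
  · rw [inBox_known hc hx hy, abs_zero]
    positivity

theorem four_abs (x₀ x₁ y₀ y₁ : ℝ) :
    2 * |x₀ - x₁| ≤ |x₀ + y₀| + |x₁ + y₀| + (|x₀ + y₁| + |x₁ + y₁|) := by
  have h1 : |x₀ - x₁| ≤ |x₀ + y₀| + |x₁ + y₀| := by
    have : x₀ - x₁ = (x₀ + y₀) - (x₁ + y₀) := by ring
    rw [this]
    exact abs_sub _ _
  have h2 : |x₀ - x₁| ≤ |x₀ + y₁| + |x₁ + y₁| := by
    have : x₀ - x₁ = (x₀ + y₁) - (x₁ + y₁) := by ring
    rw [this]
    exact abs_sub _ _
  linarith

theorem vea : S_VEA := by
  intro N L hN κ δ hκ hδ hκmn r w hr hw hPsi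
  set m := (rws N L).length with hm
  set n := (cls1 N).length with hn
  have hn3 : n = 4 * N + 3 := len_cls1 N
  have hm2 : m = 2 * N + L.length := len_rws N L
  set kd := knd N (rws N L) (cls1 N) with hkd
  -- the kinds
  have kd0 : ∀ a b, kd a b = 0 ↔ isG (rws N L) (cls1 N) a b = true := by
    intro a b
    rw [hkd]
    unfold knd
    split_ifs with h1 h2 <;> simp_all
  have kd2 : ∀ a b, kd a b = 2 → a = N - 1 ∧ b = 4 * N + 2 := by
    intro a b
    rw [hkd]
    unfold knd
    split_ifs with h1 h2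
    · simp
    · intro _
      exact ⟨h2.1, by rw [h2.2, len_cls1]; omega⟩
    · simp
  have kdt : kd (N - 1) (4 * N + 2) = 2 := by
    rw [hkd]
    unfold knd
    rw [isG_last]
    simp [len_cls1]
  clear_value kd m n
  -- the sum of the gate cells
  set gc : ℕ → ℕ → ℝ := fun a b => if kd a b = 0 then
    ∑ s ∈ Finset.range 2, ∑ t ∈ Finset.range 2, |dot (r a s) (w b t)| else 0 with hgc
  clear_value gc
  have hgc0 : ∀ a b, 0 ≤ gc a b := by
    intro a b
    simp only [hgc]
    split_ifs
    · positivity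
    · exact le_rfl
  set Γ : ℝ := ∑ a ∈ Finset.range m, ∑ b ∈ Finset.range n, gc a b with hΓ
  clear_value Γ
  have hΓ0 : 0 ≤ Γ := by
    rw [hΓ]
    exact Finset.sum_nonneg fun a _ => Finset.sum_nonneg fun b _ => hgc0 a b
  have hle : ∀ a < m, ∀ b < n, gc a b ≤ Γ := by
    intro a ha b hb
    calc gc a b ≤ ∑ b ∈ Finset.range n, gc a b :=
          Finset.single_le_sum (f := fun b => gc a b) (fun b _ => hgc0 a b) (Finset.mem_range.2 hb)
      _ ≤ Γ := hΓ ▸ Finset.single_le_sum (f := fun a => ∑ b ∈ Finset.range n, gc a b)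
          (fun a _ => Finset.sum_nonneg fun b _ => hgc0 a b) (Finset.mem_range.2 ha)
  have hle4 : ∀ a < m, ∀ b < n, isG (rws N L) (cls1 N) a b = true →
      |dot (r a 0) (w b 0)| + |dot (r a 0) (w b 1)| + (|dot (r a 1) (w b 0)| + |dot (r a 1) (w b 1)|) ≤
        Γ := by
    intro a ha b hb hG
    have h1 := hle a ha b hb
    simp only [hgc] at h1
    rw [if_pos ((kd0 a b).2 hG)] at h1
    simpa [Finset.sum_range_succ] using h1
  -- the free columns
  have hfree : ∀ j < N, |dif (w (4 * j + 3)) 0| ≤ Γ / 2 := by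
    intro j hj
    have ha : N + j < m := by omega
    have hb : 4 * j + 3 < n := by omega
    have gr : (rws N L).getD (N + j) (0, 0, 0, 0) = (5, j, j, j) := get_rws_five hj
    have gcl : (cls1 N).getD (4 * j + 3) (0, 0) = (3, j) := by
      rw [get_cls1_lt (by omega)]
      congr 1 <;> omega
    have hG : isG (rws N L) (cls1 N) (N + j) (4 * j + 3) = true := by
      unfold isG
      rw [gr, gcl]
      simp [gset]
    have h4 := hle4 _ ha _ hb hG
    have r0 : ∀ s < 2, r (N + j) s 0 = 1 := by
      intro s hs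
      have := hr _ ha s hs 0
      rw [rcd, gr] at this
      simpa [InBox, rsp, spv] using this
    have r2 : ∀ s < 2, r (N + j) s 2 = 1 := by
      intro s hs
      have := hr _ ha s hs 2
      rw [rcd, gr] at this
      simpa [InBox, rsp, spv] using this
    have w1 : ∀ t < 2, w (4 * j + 3) t 1 = 1 := by
      intro t ht
      have := hw _ hb t ht 1
      rw [ccd, gcl] at this
      simpa [InBox, csp, spv] using this
    have w2 : ∀ t < 2, w (4 * j + 3) t 2 = 0 := by
      intro t ht
      have := hw _ hb t ht 2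
      rw [ccd, gcl] at this
      simpa [InBox, csp, spv] using this
    unfold dot at h4
    rw [r0 0 (by norm_num), r0 1 (by norm_num), r2 0 (by norm_num), r2 1 (by norm_num),
      w1 0 (by norm_num), w1 1 (by norm_num), w2 0 (by norm_num), w2 1 (by norm_num)] at h4
    simp only [one_mul, mul_one, mul_zero, add_zero] at h4
    have h5 := four_abs (w (4 * j + 3) 0 0) (w (4 * j + 3) 1 0) (r (N + j) 0 1) (r (N + j) 1 1)
    unfold dif
    linarith
  -- the differences
  have hdd : ∀ a < m, ∀ b < n, |dot (dif (r a)) (dif (w b))| ≤ κ * Γ := by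
    intro a ha b hb
    have h2 : dif (r a) 2 = 0 := inBox_known (rsp_two _) (hr a ha 0 (by norm_num) 2) (hr a ha 1 (by norm_num) 2)
    have h1 : dif (w b) 1 = 0 := inBox_known (csp_one _) (hw b hb 0 (by norm_num) 1) (hw b hb 1 (by norm_num) 1)
    have h0 : |dif (r a) 0| ≤ 2 * κ := inBox_dif hκ.le (hr a ha 0 (by norm_num) 0) (hr a ha 1 (by norm_num) 0)
    have hw0 : |dif (w b) 0| ≤ Γ / 2 := by
      by_cases hc : ((cls1 N).getD b (0, 0)).1 = 3
      · obtain ⟨j, hj, rfl⟩ := get_cls1_three (by omega) hc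
        exact hfree j hj
      · have : dif (w b) 0 = 0 := inBox_known (csp_zero hc) (hw b hb 0 (by norm_num) 0) (hw b hb 1 (by norm_num) 0)
        rw [this, abs_zero]
        positivity
    unfold dot
    rw [h2, h1, mul_zero, zero_mul, add_zero, add_zero, abs_mul]
    calc |dif (r a) 0| * |dif (w b) 0| ≤ (2 * κ) * (Γ / 2) :=
          mul_le_mul h0 hw0 (abs_nonneg _) (by positivity)
      _ = κ * Γ := by ring
  -- the target cell
  have haN : N - 1 < m := by omega
  have hbn : 4 * N + 2 < n := by omega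
  set z : ℝ := (r (N - 1) 0 0 + r (N - 1) 1 0) / 2 with hz
  clear_value z
  have htarget : ∑ s ∈ Finset.range 2, ∑ t ∈ Finset.range 2, dot (r (N - 1) s) (w (4 * N + 2) t) =
      4 * δ * z := by
    have w0 : ∀ t < 2, w (4 * N + 2) t 0 = δ := by
      intro t ht
      have := hw _ hbn t ht 0
      rw [ccd, get_cls1_last] at this
      simpa [InBox, csp, spv] using this
    have w1 : ∀ t < 2, w (4 * N + 2) t 1 = 0 := by
      intro t ht
      have := hw _ hbn t ht 1
      rw [ccd, get_cls1_last] at this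
      simpa [InBox, csp, spv] using this
    have w2 : ∀ t < 2, w (4 * N + 2) t 2 = 0 := by
      intro t ht
      have := hw _ hbn t ht 2
      rw [ccd, get_cls1_last] at this
      simpa [InBox, csp, spv] using this
    simp only [Finset.sum_range_succ, Finset.sum_range_zero, zero_add]
    unfold dot
    rw [w0 0 (by norm_num), w0 1 (by norm_num), w1 0 (by norm_num), w1 1 (by norm_num),
      w2 0 (by norm_num), w2 1 (by norm_num)]
    rw [hz]
    ring
  -- the lower bound of Psi
  have hlow : Γ - m * n * (κ * Γ) + 4 * δ * z ≤ Psi m n kd r w := by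
    have e1 : Γ - m * n * (κ * Γ) + 4 * δ * z = ∑ a ∈ Finset.range m, ∑ b ∈ Finset.range n,
        (gc a b - κ * Γ + (if a = N - 1 ∧ b = 4 * N + 2 then 4 * δ * z else 0)) := by
      simp only [Finset.sum_add_distrib, Finset.sum_sub_distrib]
      rw [sum_target haN hbn, ← hΓ]
      simp only [Finset.sum_const, Finset.card_range, nsmul_eq_mul]
      ring
    rw [e1]
    unfold Psi
    refine Finset.sum_le_sum fun a ha => Finset.sum_le_sum fun b hb => ?_
    rw [Finset.mem_range] at ha hb
    have hd := abs_le.1 (hdd a ha b hb)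
    have hκΓ : 0 ≤ κ * Γ := by positivity
    by_cases h0 : kd a b = 0
    · have hne : ¬ (a = N - 1 ∧ b = 4 * N + 2) := by
        rintro ⟨rfl, rfl⟩
        rw [kdt] at h0
        norm_num at h0
      rw [if_neg hne, if_pos h0]
      simp only [hgc]
      rw [if_pos h0]
      linarith
    · by_cases h2 : kd a b = 2
      · obtain ⟨rfl, rfl⟩ := kd2 a b h2
        rw [if_pos ⟨rfl, rfl⟩, if_neg h0, if_pos h2, htarget]
        simp only [hgc]
        rw [if_neg h0]
        linarith
      · have hne : ¬ (a = N - 1 ∧ b = 4 * N + 2) := by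
          rintro ⟨rfl, rfl⟩
          exact h2 kdt
        rw [if_neg hne, if_neg h0, if_neg h2]
        simp only [hgc]
        rw [if_neg h0]
        linarith
  have hmn : (m : ℝ) * n * (κ * Γ) ≤ Γ / 6 := by
    have h1 := mul_le_mul_of_nonneg_right hκmn hΓ0
    linarith
  refine ⟨Γ, fun a l => (r a 0 l + r a 1 l) / 2, fun b l => (w b 0 l + w b 1 l) / 2, hΓ0, ?_, ?_, ?_,
    ?_, ?_⟩
  · intro a ha l
    exact inBox_avg (hr a ha 0 (by norm_num) l) (hr a ha 1 (by norm_num) l)
  · intro b hb l
    exact inBox_avg (hw b hb 0 (by norm_num) l) (hw b hb 1 (by norm_num) l)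
  · intro a ha b hb hG
    have h4 := hle4 a ha b hb hG
    have e : dot (fun l => (r a 0 l + r a 1 l) / 2) (fun l => (w b 0 l + w b 1 l) / 2) =
        (dot (r a 0) (w b 0) + dot (r a 0) (w b 1) + (dot (r a 1) (w b 0) + dot (r a 1) (w b 1))) / 4 := by
      unfold dot
      ring
    rw [e, abs_div, abs_of_pos (by norm_num : (0 : ℝ) < 4)]
    have h5 := abs_add_le (dot (r a 0) (w b 0) + dot (r a 0) (w b 1)) (dot (r a 1) (w b 0) + dot (r a 1) (w b 1))
    have h6 := abs_add_le (dot (r a 0) (w b 0)) (dot (r a 0) (w b 1))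
    have h7 := abs_add_le (dot (r a 1) (w b 0)) (dot (r a 1) (w b 1))
    linarith
  · show (r (N - 1) 0 0 + r (N - 1) 1 0) / 2 < 0
    rw [← hz]
    have : 4 * δ * z < 0 := by linarith
    by_contra hz0
    have hz1 : 0 ≤ z := not_lt.1 hz0
    have : 0 ≤ 4 * δ * z := by positivity
    linarith
  · show Γ ≤ - 8 * δ * ((r (N - 1) 0 0 + r (N - 1) 1 0) / 2)
    rw [← hz]
    have h1 : 4 * δ * z < - (5 / 6 * Γ) := by linarith
    linarith

end Pool.Agent.Q257.LR.VA
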