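import Pool.Agent.Q230.LR.St

set_option autoImplicit false

/-!
# LR-VEB: almost orthogonal vectors satisfy the gates up to a small error
-/

namespace Pool.Agent.Q257.LR.VB

open Pool.Agent.NPC Pool.Agent.NPC.ER
open Pool.Agent.Q230.LR

theorem four_cases {a : ℕ} (h : a ≤ 3) : a = 0 ∨ a = 1 ∨ a = 2 ∨ a = 3 := by omega

theorem mem4 {N : ℕ} {L : List Gt} {k : ℕ} (hk : k < N) : ((4, k, k, k) : Gt) ∈ rws N L := by
  unfold rws
  rw [List.mem_append, List.mem_append]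
  exact Or.inl (Or.inl (List.mem_map.2 ⟨k, List.mem_range.2 hk, rfl⟩))

theorem mem5 {N : ℕ} {L : List Gt} {k : ℕ} (hk : k < N) : ((5, k, k, k) : Gt) ∈ rws N L := by
  unfold rws
  rw [List.mem_append, List.mem_append]
  exact Or.inl (Or.inr (List.mem_map.2 ⟨k, List.mem_range.2 hk, rfl⟩))

theorem memL {N : ℕ} {L : List Gt} {g : Gt} (hg : g ∈ L) : g ∈ rws N L := by
  unfold rws
  rw [List.mem_append]
  exact Or.inr hg

theorem memC {N : ℕ} {a k : ℕ} (hk : k < N) (ha : a ≤ 3) : ((a, k) : ℕ × ℕ) ∈ cls N := by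
  unfold cls
  rw [List.mem_append]
  left
  rw [List.mem_flatMap]
  refine ⟨k, List.mem_range.2 hk, ?_⟩
  rcases four_cases ha with rfl | rfl | rfl | rfl <;> simp

theorem mem40 {N : ℕ} : ((4, 0) : ℕ × ℕ) ∈ cls N := by
  unfold cls
  rw [List.mem_append]
  right
  simp

theorem mem50 {N : ℕ} : ((5, 0) : ℕ × ℕ) ∈ cls N := by
  unfold cls
  rw [List.mem_append]
  right
  simp

theorem veb : S_VEB := by
  intro N L hBd γ δ B Γ hB hΓ X Y hX hY hdot
  obtain ⟨e, he⟩ : ∃ e : ℝ, e = Γ / 4 := ⟨_, rfl⟩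
  have he0 : 0 ≤ e := by rw [he]; positivity
  rw [← he] at hdot
  have hgoal : (2 + 2 * B) * Γ = (8 + 8 * B) * e := by rw [he]; ring
  rw [hgoal]
  -- columns
  have hY0 : ∀ k < N, Y (0, k) 0 = 1 ∧ Y (0, k) 1 = 0 := by
    intro k hk
    have h0 := hY (0, k) (memC hk (by norm_num)) 0
    have h1 := hY (0, k) (memC hk (by norm_num)) 1
    simp [InBox, csp, spv] at h0 h1
    exact ⟨h0, h1⟩
  have hY1 : ∀ k < N, Y (1, k) 0 = 0 ∧ Y (1, k) 1 = 1 := by
    intro k hk
    have h0 := hY (1, k) (memC hk (by norm_num)) 0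
    have h1 := hY (1, k) (memC hk (by norm_num)) 1
    simp [InBox, csp, spv] at h0 h1
    exact ⟨h0, h1⟩
  have hY2 : ∀ k < N, Y (2, k) 0 = 1 / 2 ∧ Y (2, k) 1 = 1 / 2 := by
    intro k hk
    have h0 := hY (2, k) (memC hk (by norm_num)) 0
    have h1 := hY (2, k) (memC hk (by norm_num)) 1
    simp [InBox, csp, spv] at h0 h1
    exact ⟨by rw [h0]; norm_num, by rw [h1]; norm_num⟩
  have hY3 : ∀ k < N, Y (3, k) 1 = 1 ∧ Y (3, k) 2 = 0 := by
    intro k hk
    have h0 := hY (3, k) (memC hk (by norm_num)) 1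
    have h1 := hY (3, k) (memC hk (by norm_num)) 2
    simp [InBox, csp, spv] at h0 h1
    exact ⟨h0, h1⟩
  have hY4 : Y (4, 0) 0 = 1 ∧ Y (4, 0) 1 = -1 ∧ Y (4, 0) 2 = 0 := by
    have h0 := hY (4, 0) mem40 0
    have h1 := hY (4, 0) mem40 1
    have h2 := hY (4, 0) mem40 2
    simp [InBox, csp, spv] at h0 h1 h2
    exact ⟨h0, h1, h2⟩
  have hY5 : Y (5, 0) 0 = 1 ∧ Y (5, 0) 1 = 1 ∧ Y (5, 0) 2 = 0 := by
    have h0 := hY (5, 0) mem50 0
    have h1 := hY (5, 0) mem50 1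
    have h2 := hY (5, 0) mem50 2
    simp [InBox, csp, spv] at h0 h1 h2
    exact ⟨h0, h1, h2⟩
  -- the variables
  have hvar : ∀ k < N, |X (4, k, k, k) 0 + Y (0, k) 2| ≤ e ∧ |X (4, k, k, k) 0 + Y (1, k) 2| ≤ 2 * e ∧
      |X (4, k, k, k) 0 + Y (2, k) 2| ≤ 3 / 2 * e ∧ |X (4, k, k, k) 0 + Y (3, k) 0| ≤ 4 * e ∧
      |X (4, k, k, k) 0| ≤ B := by
    intro k hk
    have x0 := hX (4, k, k, k) (mem4 hk) 0
    have x2 := hX (4, k, k, k) (mem4 hk) 2
    have z0 := hX (5, k, k, k) (mem5 hk) 0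
    have z2 := hX (5, k, k, k) (mem5 hk) 2
    simp [InBox, rsp, spv] at x0 x2 z0 z2
    have d1 := hdot (4, k, k, k) (mem4 hk) (0, k) (by simp [gset])
    have d2 := hdot (4, k, k, k) (mem4 hk) (1, k) (by simp [gset])
    have d3 := hdot (4, k, k, k) (mem4 hk) (2, k) (by simp [gset])
    have d4 := hdot (4, k, k, k) (mem4 hk) (4, 0) (by simp [gset])
    have d5 := hdot (5, k, k, k) (mem5 hk) (1, k) (by simp [gset])
    have d6 := hdot (5, k, k, k) (mem5 hk) (3, k) (by simp [gset])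
    unfold dot at d1 d2 d3 d4 d5 d6
    rw [(hY0 k hk).1, (hY0 k hk).2, x2] at d1
    rw [(hY1 k hk).1, (hY1 k hk).2, x2] at d2
    rw [(hY2 k hk).1, (hY2 k hk).2, x2] at d3
    rw [hY4.1, hY4.2.1, hY4.2.2, x2] at d4
    rw [(hY1 k hk).1, (hY1 k hk).2, z0, z2] at d5
    rw [(hY3 k hk).1, (hY3 k hk).2, z0, z2] at d6
    rw [abs_le] at d1 d2 d3 d4 d5 d6
    refine ⟨?_, ?_, ?_, ?_, x0⟩
    · rw [abs_le]; constructor <;> linarith
    · rw [abs_le]; constructor <;> linarith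
    · rw [abs_le]; constructor <;> linarith
    · rw [abs_le]; constructor <;> linarith
  intro g hg
  obtain ⟨b1, b2, b3, b4⟩ := hBd g hg
  obtain ⟨t, i, j, k⟩ := g
  simp only at b1 b2 b3 b4
  show |X (4, k, k, k) 0 - op γ (fun k => X (4, k, k, k) 0) (t, i, j, k)| ≤ (8 + 8 * B) * e
  obtain ⟨c1, c2, c3, c4, c5⟩ := hvar k b2
  have hBe : 0 ≤ B * e := mul_nonneg hB he0
  rcases four_cases b1 with rfl | rfl | rfl | rfl
  · have x0 := hX (0, i, j, k) (memL hg) 0
    have x1 := hX (0, i, j, k) (memL hg) 1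
    have x2 := hX (0, i, j, k) (memL hg) 2
    have d1 := hdot (0, i, j, k) (memL hg) (0, k) (by simp [gset])
    simp [InBox, rsp, spv] at x1 x2
    have x0' : X (0, i, j, k) 0 = cv γ j := by
      by_cases h8 : j = 8
      · subst h8
        simpa [InBox, rsp, spv, cv] using x0
      · by_cases h1 : j = 1
        · subst h1
          simpa [InBox, rsp, spv, cv] using x0
        · simpa [InBox, rsp, spv, cv, h8, h1] using x0
    unfold dot at d1
    rw [(hY0 k b2).1, (hY0 k b2).2, x2, x0'] at d1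
    have e1 : op γ (fun k => X (4, k, k, k) 0) (0, i, j, k) = cv γ j := by simp [op]
    rw [e1]
    rw [abs_le] at c1 d1 ⊢
    constructor <;> nlinarith
  · have hi : i < N := b3 (by norm_num)
    have hj : j < N := b4 (by norm_num)
    obtain ⟨i1, i2, i3, i4, i5⟩ := hvar i hi
    obtain ⟨j1, j2, j3, j4, j5⟩ := hvar j hj
    have x2 := hX (1, i, j, k) (memL hg) 2
    simp [InBox, rsp, spv] at x2
    have d1 := hdot (1, i, j, k) (memL hg) (0, i) (by simp [gset])
    have d2 := hdot (1, i, j, k) (memL hg) (1, j) (by simp [gset])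
    have d3 := hdot (1, i, j, k) (memL hg) (2, k) (by simp [gset])
    unfold dot at d1 d2 d3
    rw [(hY0 i hi).1, (hY0 i hi).2, x2] at d1
    rw [(hY1 j hj).1, (hY1 j hj).2, x2] at d2
    rw [(hY2 k b2).1, (hY2 k b2).2, x2] at d3
    have e1 : op γ (fun k => X (4, k, k, k) 0) (1, i, j, k) = (X (4, i, i, i) 0 + X (4, j, j, j) 0) / 2 := by simp [op]
    rw [e1]
    rw [abs_le] at c3 d1 d2 d3 i1 j2 ⊢
    constructor <;> nlinarith
  · have hi : i < N := b3 (by norm_num)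
    obtain ⟨i1, i2, i3, i4, i5⟩ := hvar i hi
    have x2 := hX (2, i, j, k) (memL hg) 2
    simp [InBox, rsp, spv] at x2
    have d1 := hdot (2, i, j, k) (memL hg) (0, i) (by simp [gset])
    have d2 := hdot (2, i, j, k) (memL hg) (1, k) (by simp [gset])
    have d3 := hdot (2, i, j, k) (memL hg) (5, 0) (by simp [gset])
    unfold dot at d1 d2 d3
    rw [(hY0 i hi).1, (hY0 i hi).2, x2] at d1
    rw [(hY1 k b2).1, (hY1 k b2).2, x2] at d2
    rw [hY5.1, hY5.2.1, hY5.2.2, x2] at d3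
    have e1 : op γ (fun k => X (4, k, k, k) 0) (2, i, j, k) = - X (4, i, i, i) 0 := by simp [op]
    rw [e1]
    rw [abs_le] at c2 d1 d2 d3 i1 ⊢
    constructor <;> nlinarith
  · have hi : i < N := b3 (by norm_num)
    have hj : j < N := b4 (by norm_num)
    obtain ⟨i1, i2, i3, i4, i5⟩ := hvar i hi
    obtain ⟨j1, j2, j3, j4, j5⟩ := hvar j hj
    have x0 := hX (3, i, j, k) (memL hg) 0
    have x2 := hX (3, i, j, k) (memL hg) 2
    simp [InBox, rsp, spv] at x0 x2
    have d1 := hdot (3, i, j, k) (memL hg) (0, i) (by simp [gset])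
    have d2 := hdot (3, i, j, k) (memL hg) (1, k) (by simp [gset])
    have d3 := hdot (3, i, j, k) (memL hg) (3, j) (by simp [gset])
    unfold dot at d1 d2 d3
    rw [(hY0 i hi).1, (hY0 i hi).2, x2] at d1
    rw [(hY1 k b2).1, (hY1 k b2).2, x2] at d2
    rw [(hY3 j hj).1, (hY3 j hj).2, x2] at d3
    have e1 : op γ (fun k => X (4, k, k, k) 0) (3, i, j, k) = X (4, i, i, i) 0 * X (4, j, j, j) 0 := by simp [op]
    rw [e1]
    set x := X (3, i, j, k) 0
    set y := X (3, i, j, k) 1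
    set ci := X (4, i, i, i) 0
    set cj := X (4, j, j, j) 0
    set ck := X (4, k, k, k) 0
    set M := Y (3, j) 0
    have f1 : |ck - y| ≤ 3 * e := by rw [abs_le] at c2 d2 ⊢; constructor <;> linarith
    have f2 : |y + x * M| ≤ e := by rw [abs_le] at d3 ⊢; constructor <;> linarith
    have f3 : |x * (M + cj)| ≤ B * (4 * e) := by
      rw [abs_mul]
      refine mul_le_mul x0 ?_ (abs_nonneg _) hB
      rw [add_comm]
      exact j4
    have f4 : |cj * (x - ci)| ≤ B * (2 * e) := by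
      rw [abs_mul]
      refine mul_le_mul j5 ?_ (abs_nonneg _) hB
      rw [abs_le] at i1 d1 ⊢; constructor <;> linarith
    have e2 : ck - ci * cj = (ck - y) + (y + x * M) - x * (M + cj) + cj * (x - ci) := by ring
    rw [e2]
    rw [abs_le] at f1 f2 f3 f4 ⊢
    constructor <;> nlinarith

end Pool.Agent.Q257.LR.VB
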