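import Pool.Agent.Q230.LR.St

set_option autoImplicit false

/-!
# LR-WF: the gates for `p = 1` form a straight-line program
-/

namespace Pool.Agent.Q257.LR.W

open Pool.Agent.NPC Pool.Agent.NPC.ER
open Pool.Agent.Q230.LR

/-- the condition for the gate at the position `k` -/
def Ok (k : ℕ) (g : Gt) : Prop := g.1 ≤ 3 ∧ g.2.2.2 = k ∧ (g.1 ≠ 0 → g.2.1 < k) ∧
  (g.1 = 1 ∨ g.1 = 3 → g.2.2.1 < k)

theorem wf_append {N₀ : ℕ} {L L' : List Gt} (h : Wf N₀ L) (h' : Wf (N₀ + L.length) L') : Wf N₀ (L ++ L') := by
  intro t g hg
  rcases lt_or_ge t L.length with ht | ht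
  · rw [List.getElem?_append_left ht] at hg
    exact h t g hg
  · rw [List.getElem?_append_right ht] at hg
    have := h' (t - L.length) g hg
    have e : N₀ + L.length + (t - L.length) = N₀ + t := by omega
    rw [e] at this
    exact this

theorem wf_nil (N₀ : ℕ) : Wf N₀ [] := by
  intro t g hg
  simp at hg

theorem wf_cons {N₀ : ℕ} {g : Gt} {L : List Gt} (h : Ok N₀ g) (h' : Wf (N₀ + 1) L) : Wf N₀ (g :: L) := by
  have h1 : Wf N₀ [g] := by
    intro t g' hg
    rcases t with _ | t
    · simp only [List.getElem?_cons_zero, Option.some.injEq] at hg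
      subst hg
      exact h
    · simp at hg
  exact wf_append (L := [g]) h1 h'

theorem wf_pre (T : List Con) : Wf (svars T).length (pre T) ∧ (pre T).length = sqn T + 5 := by
  set n := (svars T).length with hn
  set q := sqn T with hq
  constructor
  · unfold pre
    rw [← hn, ← hq]
    refine wf_append (wf_append ?_ ?_) ?_
    · refine wf_cons ⟨by norm_num, rfl, fun h => absurd rfl h, fun h => by norm_num at h⟩ ?_
      refine wf_cons ⟨by norm_num, rfl, fun h => absurd rfl h, fun h => by norm_num at h⟩ ?_
      exact wf_cons ⟨by norm_num, rfl, fun h => absurd rfl h, fun h => by norm_num at h⟩ (wf_nil _)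
    · intro t g hg
      rw [List.getElem?_map] at hg
      rw [Option.map_eq_some_iff] at hg
      obtain ⟨j, hj, rfl⟩ := hg
      have ht : t < q := by
        by_contra hcon
        rw [List.getElem?_eq_none (by rw [List.length_range]; omega)] at hj
        exact absurd hj (by simp)
      rw [List.getElem?_range ht, Option.some.injEq] at hj
      subst hj
      have hlen : ([((0 : ℕ), (0 : ℕ), (1 : ℕ), n), (0, 0, 8, n + 1), (0, 0, 0, n + 2)] : List Gt).length = 3 := rfl
      rw [hlen]
      refine ⟨by norm_num, ?_, fun _ => ?_, fun _ => ?_⟩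
      · show n + 3 + t = n + 3 + t
        rfl
      · show (if t = 0 then n + 1 else n + 2 + t) < n + 3 + t
        split_ifs <;> omega
      · show (if t = 0 then n + 1 else n + 2 + t) < n + 3 + t
        split_ifs <;> omega
    · have e : n + ([((0 : ℕ), (0 : ℕ), (1 : ℕ), n), (0, 0, 8, n + 1), (0, 0, 0, n + 2)] ++
          List.map (fun j => (3, if j = 0 then n + 1 else n + 2 + j, if j = 0 then n + 1 else n + 2 + j,
            n + 3 + j)) (List.range q)).length = n + 3 + q := by
        simp
        ring
      rw [e]
      refine wf_cons ⟨by norm_num, rfl, fun _ => ?_, fun h => by norm_num at h⟩ ?_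
      · show n + 2 + q < n + 3 + q
        omega
      · refine wf_cons ⟨by norm_num, ?_, fun h => absurd rfl h, fun h => by norm_num at h⟩ (wf_nil _)
        show n + 4 + q = n + 3 + q + 1
        omega
  · unfold pre
    simp
    omega

theorem wf_blk (T : List Con) (c : Con) (q : ℕ) (hc : ∀ i ∈ c.vars, ri T i < (svars T).length)
    (hq : (svars T).length + 5 ≤ q) : Wf q (blk T c q) ∧ (blk T c q).length = 6 := by
  set n := (svars T).length with hn
  constructor
  · unfold blk
    have h2 : Wf q (two T c q) ∧ (two T c q).length = 2 := by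
      cases c with
      | one i =>
        have h1 := hc i (by simp [ER.Con.vars])
        refine ⟨?_, rfl⟩
        unfold two
        rw [← hn]
        refine wf_cons ⟨by norm_num, rfl, fun _ => ?_, fun _ => ?_⟩ (wf_cons ⟨by norm_num, rfl, fun _ => ?_,
          fun _ => ?_⟩ (wf_nil _))
        · show ri T i < q
          omega
        · show n + 2 < q
          omega
        · show n < q + 1
          omega
        · show n + 2 < q + 1
          omega
      | add i j k =>
        have h1 := hc i (by simp [ER.Con.vars])
        have h2 := hc j (by simp [ER.Con.vars])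
        have h3 := hc k (by simp [ER.Con.vars])
        refine ⟨?_, rfl⟩
        unfold two
        rw [← hn]
        refine wf_cons ⟨by norm_num, rfl, fun _ => ?_, fun _ => ?_⟩ (wf_cons ⟨by norm_num, rfl, fun _ => ?_,
          fun _ => ?_⟩ (wf_nil _))
        · show ri T i < q
          omega
        · show ri T j < q
          omega
        · show ri T k < q + 1
          omega
        · show n + 2 < q + 1
          omega
      | mul i j k =>
        have h1 := hc i (by simp [ER.Con.vars])
        have h2 := hc j (by simp [ER.Con.vars])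
        have h3 := hc k (by simp [ER.Con.vars])
        refine ⟨?_, rfl⟩
        unfold two
        rw [← hn]
        refine wf_cons ⟨by norm_num, rfl, fun _ => ?_, fun _ => ?_⟩ (wf_cons ⟨by norm_num, rfl, fun _ => ?_,
          fun _ => ?_⟩ (wf_nil _))
        · show ri T i < q
          omega
        · show ri T j < q
          omega
        · show n + 1 < q + 1
          omega
        · show ri T k < q + 1
          omega
    refine wf_append h2.1 ?_
    rw [h2.2]
    refine wf_cons ⟨by norm_num, rfl, fun _ => ?_, fun h => by norm_num at h⟩ (wf_cons ⟨by norm_num, rfl,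
      fun _ => ?_, fun _ => ?_⟩ (wf_cons ⟨by norm_num, rfl, fun _ => ?_, fun _ => ?_⟩ (wf_cons ⟨by norm_num, rfl,
      fun _ => ?_, fun _ => ?_⟩ (wf_nil _))))
    · show q + 1 < q + 2
      omega
    · show q < q + 2 + 1
      omega
    · show q + 2 < q + 2 + 1
      omega
    · show q + 3 < q + 2 + 1 + 1
      omega
    · show q + 3 < q + 2 + 1 + 1
      omega
    · show q - 1 < q + 2 + 1 + 1 + 1
      omega
    · show q + 4 < q + 2 + 1 + 1 + 1
      omega
  · unfold blk
    cases c <;> rfl

theorem wf_blks (T : List Con) : ∀ (cs : List Con) (k : ℕ), (∀ c ∈ cs, ∀ i ∈ c.vars, ri T i < (svars T).length) →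
    Wf (bas T + 6 * k) ((cs.zipIdx k).flatMap fun p => blk T p.1 (bas T + 6 * p.2)) ∧
      ((cs.zipIdx k).flatMap fun p => blk T p.1 (bas T + 6 * p.2)).length = 6 * cs.length := by
  intro cs
  induction cs with
  | nil =>
    intro k _
    exact ⟨wf_nil _, rfl⟩
  | cons c cs ih =>
    intro k h
    have h1 := ih (k + 1) (fun c' hc' => h c' (List.mem_cons_of_mem _ hc'))
    have h2 := wf_blk T c (bas T + 6 * k) (h c List.mem_cons_self) (by unfold bas; omega)
    rw [List.zipIdx_cons, List.flatMap_cons]
    constructor
    · refine wf_append h2.1 ?_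
      simp only
      rw [h2.2]
      have e : bas T + 6 * k + 6 = bas T + 6 * (k + 1) := by ring
      rw [e]
      exact h1.1
    · rw [List.length_append, h1.2]
      simp only
      rw [h2.2, List.length_cons]
      ring

theorem wf : S_WF := by
  intro T
  have hvars : ∀ c ∈ T, ∀ i ∈ c.vars, ri T i < (svars T).length := fun c hc i hi =>
    List.idxOf_lt_length_of_mem (mem_svars hc hi)
  obtain ⟨p1, p2⟩ := wf_pre T
  obtain ⟨b1, b2⟩ := wf_blks T T 0 hvars
  have hb : (svars T).length + (pre T).length = bas T + 6 * 0 := by
    rw [p2]; unfold bas; omega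
  have hlen : (pre T ++ T.zipIdx.flatMap (fun p => blk T p.1 (bas T + 6 * p.2))).length = sqn T + 5 + 6 * T.length := by
    rw [List.length_append, p2, b2]
  constructor
  · unfold gates1
    refine wf_append (wf_append p1 ?_) ?_
    · rw [hb]
      exact b1
    · rw [hlen]
      have e : (svars T).length + (sqn T + 5 + 6 * T.length) = bas T + 6 * T.length := by
        unfold bas; omega
      rw [e]
      refine wf_cons ⟨by norm_num, rfl, fun _ => ?_, fun _ => ?_⟩ (wf_nil _)
      · show bas T + 6 * T.length - 1 < bas T + 6 * T.length
        unfold bas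
        omega
      · show (svars T).length + 3 + sqn T < bas T + 6 * T.length
        unfold bas
        omega
  · unfold gates1 out1
    rw [List.length_append, hlen, List.length_singleton]
    unfold bas
    omega

end Pool.Agent.Q257.LR.W
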